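import Mathlib

set_option linter.all false

namespace Pool.Agent.V11199.RC

open Finset Classical

section abs

variable {V S : Type} [Fintype V] (step : S → V → S) (E : S → V → Prop)

noncomputable def hits : (j : ℕ) → S → (Fin j → V) → ℕ
  | 0, _, _ => 0
  | j + 1, s, x => (if E s (x 0) then 1 else 0) + hits j (step s (x 0)) (Fin.tail x)

theorem sum_cons {β : Type} [AddCommMonoid β] (j : ℕ) (g : (Fin (j + 1) → V) → β) :
    ∑ x, g x = ∑ v, ∑ y, g (Fin.cons v y) := by
  rw [← Fintype.sum_prod_type' (fun v y => g (Fin.cons v y))]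
  symm
  exact Fintype.sum_equiv (Fin.consEquiv (fun _ : Fin (j + 1) => V)) _ _ (fun z => rfl)

theorem hits_count (Inv : ℕ → S → Prop) (θ : ℝ) (hθ : 0 ≤ θ)
    (hE : ∀ j s, Inv (j + 1) s →
      ((∑ v, if E s v then (1 : ℝ) else 0) ≤ θ * Fintype.card V) ∧ ∀ v, Inv j (step s v)) :
    ∀ (j b : ℕ) (s : S), Inv j s →
      (∑ x : Fin j → V, if b ≤ hits step E j s x then (1 : ℝ) else 0)
        ≤ 2 ^ j * θ ^ b * (Fintype.card V : ℝ) ^ j := by
  intro j
  induction j with
  | zero =>
    intro b s _
    rcases Nat.eq_zero_or_pos b with h | h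
    · subst h; simp
    · have : ¬ b ≤ 0 := by omega
      simp [hits, this]
      positivity
  | succ j ih =>
    intro b s hs
    obtain ⟨h1, h2⟩ := hE j s hs
    rw [sum_cons]
    rcases Nat.eq_zero_or_pos b with h | h
    · subst h
      simp only [Nat.zero_le, if_true, Finset.sum_const, Finset.card_univ, Fintype.card_pi,
        Finset.prod_const, Fintype.card_fin, nsmul_eq_mul, mul_one, pow_zero]
      have : (1 : ℝ) ≤ 2 ^ (j + 1) := one_le_pow₀ (by norm_num)
      have h3 : (0 : ℝ) ≤ (Fintype.card V : ℝ) ^ (j + 1) := by positivity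
      push_cast
      calc (Fintype.card V : ℝ) * (Fintype.card V : ℝ) ^ j = 1 * (Fintype.card V : ℝ) ^ (j + 1) := by
            rw [pow_succ]; ring
        _ ≤ _ := mul_le_mul_of_nonneg_right this h3
    · obtain ⟨c, rfl⟩ : ∃ c, b = c + 1 := ⟨b - 1, by omega⟩
      have key : ∀ v : V, (∑ y : Fin j → V, if c + 1 ≤ hits step E (j + 1) s (Fin.cons v y) then (1 : ℝ) else 0)
          ≤ (if E s v then (1 : ℝ) else 0) * (2 ^ j * θ ^ c * (Fintype.card V : ℝ) ^ j)
            + 2 ^ j * θ ^ (c + 1) * (Fintype.card V : ℝ) ^ j := by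
        intro v
        have hnn : (0 : ℝ) ≤ 2 ^ j * θ ^ (c + 1) * (Fintype.card V : ℝ) ^ j := by positivity
        by_cases hv : E s v
        · have := ih c (step s v) (h2 v)
          rw [if_pos hv, one_mul]
          refine le_trans (le_trans (le_of_eq ?_) this) (by linarith)
          refine Finset.sum_congr rfl (fun y _ => ?_)
          simp only [hits, Fin.cons_zero, Fin.tail_cons, if_pos hv]
          congr 1
          apply propext
          omega
        · have := ih (c + 1) (step s v) (h2 v)
          rw [if_neg hv, zero_mul, zero_add]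
          refine le_trans (le_of_eq ?_) this
          refine Finset.sum_congr rfl (fun y _ => ?_)
          simp only [hits, Fin.cons_zero, Fin.tail_cons, if_neg hv, zero_add]
      refine le_trans (Finset.sum_le_sum (fun v _ => key v)) ?_
      rw [Finset.sum_add_distrib, ← Finset.sum_mul]
      simp only [Finset.sum_const, Finset.card_univ, nsmul_eq_mul]
      have h4 : (∑ v, if E s v then (1 : ℝ) else 0) * (2 ^ j * θ ^ c * (Fintype.card V : ℝ) ^ j)
          ≤ θ * Fintype.card V * (2 ^ j * θ ^ c * (Fintype.card V : ℝ) ^ j) :=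
        mul_le_mul_of_nonneg_right h1 (by positivity)
      refine le_trans (add_le_add_left h4 _) (le_of_eq ?_)
      ring

end abs

section lin

variable {K V : Type} [Field K] [Fintype K] [AddCommGroup V] [Module K V] [Fintype V]


theorem card_sub (U : Submodule K V) : (∑ v, if v ∈ U then (1 : ℝ) else 0)
    = (Fintype.card K : ℝ) ^ (Module.finrank K U) := by
  rw [Finset.sum_boole]
  have h : (Finset.univ.filter (fun v => v ∈ U)).card = Fintype.card U := by
    rw [Fintype.card_subtype]
  rw [h, Module.card_eq_pow_finrank (K := K) (V := U)]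
  push_cast; rfl

theorem finrank_sup_span_le (U : Submodule K V) (v : V) :
    Module.finrank K (U ⊔ Submodule.span K {v} : Submodule K V) ≤ Module.finrank K U + 1 := by
  haveI : FiniteDimensional K V := Module.Finite.of_finite
  refine le_trans (Submodule.finrank_add_le_finrank_add_finrank U _) ?_
  have := finrank_span_le_card (R := K) ({v} : Set V)
  simp at this
  omega

/-- second phase -/
theorem phase2 (T : Submodule K V) (k t : ℕ) (hT : Module.finrank K T ≤ t) (r b : ℕ)
    (W : Submodule K V) (hW : Module.finrank K W + r ≤ k) (hWT : W ≤ T)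
    (hb : b + Module.finrank K W ≤ Module.finrank K T) :
    (∑ y : Fin r → V, if T ≤ W ⊔ Submodule.span K (Set.range y) then (1 : ℝ) else 0)
      ≤ 2 ^ r * ((Fintype.card K : ℝ) ^ (t + k) / Fintype.card V) ^ b * (Fintype.card V : ℝ) ^ r := by
  haveI : FiniteDimensional K V := Module.Finite.of_finite
  have hq : (1 : ℝ) ≤ (Fintype.card K : ℝ) := by exact_mod_cast Fintype.card_pos
  have hN : (0 : ℝ) < Fintype.card V := by exact_mod_cast Fintype.card_pos
  have main := hits_count (V := V) (fun (Z : Submodule K V) v => Z ⊔ Submodule.span K {v})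
    (fun Z v => v ∈ T ⊔ Z) (fun j Z => Module.finrank K Z + j ≤ k)
    ((Fintype.card K : ℝ) ^ (t + k) / Fintype.card V) (by positivity) ?_ r b W hW
  · refine le_trans (Finset.sum_le_sum (fun y _ => ?_)) main
    have key : ∀ (r : ℕ) (Z : Submodule K V) (y : Fin r → V),
        Module.finrank K (T ⊓ (Z ⊔ Submodule.span K (Set.range y)) : Submodule K V)
          ≤ Module.finrank K (T ⊓ Z : Submodule K V)
            + hits (fun (Z : Submodule K V) v => Z ⊔ Submodule.span K {v}) (fun Z v => v ∈ T ⊔ Z) r Z y := by
      intro r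
      induction r with
      | zero =>
        intro Z y
        have : Set.range y = ∅ := by
          rw [Set.range_eq_empty_iff]; infer_instance
        rw [this, Submodule.span_empty, sup_bot_eq]; simp [hits]
      | succ r ih =>
        intro Z y
        have h1 : Z ⊔ Submodule.span K (Set.range y)
            = (Z ⊔ Submodule.span K {y 0}) ⊔ Submodule.span K (Set.range (Fin.tail y)) := by
          rw [sup_assoc, ← Submodule.span_union]
          congr 2
          ext v
          simp only [Set.mem_range, Set.singleton_union, Set.mem_insert_iff]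
          constructor
          · rintro ⟨i, rfl⟩
            refine Fin.cases ?_ (fun i => ?_) i
            · left; rfl
            · right; exact ⟨i, rfl⟩
          · rintro (rfl | ⟨i, rfl⟩)
            · exact ⟨0, rfl⟩
            · exact ⟨i.succ, rfl⟩
        rw [h1]
        refine le_trans (ih _ _) ?_
        simp only [hits]
        rw [← add_assoc]
        refine Nat.add_le_add_right ?_ _
        by_cases hv : y 0 ∈ T ⊔ Z
        · rw [if_pos hv]
          have e1 := Submodule.finrank_sup_add_finrank_inf_eq T (Z ⊔ Submodule.span K {y 0})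
          have e2 := Submodule.finrank_sup_add_finrank_inf_eq T Z
          have e3 := finrank_sup_span_le Z (y 0)
          have e4 : Module.finrank K (T ⊔ Z : Submodule K V)
              ≤ Module.finrank K (T ⊔ (Z ⊔ Submodule.span K {y 0}) : Submodule K V) :=
            Submodule.finrank_mono (sup_le_sup_left le_sup_left _)
          omega
        · rw [if_neg hv, add_zero]
          apply Submodule.finrank_mono
          intro v hv2
          rw [Submodule.mem_inf] at hv2 ⊢
          refine ⟨hv2.1, ?_⟩
          obtain ⟨z, hz, w, hw, hzw⟩ := Submodule.mem_sup.1 hv2.2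
          obtain ⟨c, rfl⟩ := Submodule.mem_span_singleton.1 hw
          by_cases hc : c = 0
          · subst hc
            rw [zero_smul, add_zero] at hzw
            rw [← hzw]; exact hz
          · exfalso
            apply hv
            have : y 0 = c⁻¹ • (v - z) := by
              rw [← hzw, add_sub_cancel_left, smul_smul, inv_mul_cancel₀ hc, one_smul]
            rw [this]
            exact Submodule.smul_mem _ _ (Submodule.sub_mem _
              (Submodule.mem_sup_left hv2.1) (Submodule.mem_sup_right hz))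
    by_cases hy : T ≤ W ⊔ Submodule.span K (Set.range y)
    · have h2 := key r W y
      rw [inf_eq_left.2 hy, inf_eq_right.2 hWT] at h2
      have h3 : b ≤ hits (fun (Z : Submodule K V) v => Z ⊔ Submodule.span K {v}) (fun Z v => v ∈ T ⊔ Z) r W y := by
        omega
      rw [if_pos hy, if_pos h3]
    · rw [if_neg hy]; split_ifs <;> norm_num
  · intro j Z hZ
    constructor
    · rw [card_sub, div_mul_cancel₀ _ (ne_of_gt hN)]
      apply pow_le_pow_right₀ hq
      have := Submodule.finrank_add_le_finrank_add_finrank T Z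
      omega
    · intro v
      have := finrank_sup_span_le Z v
      omega

/-- first phase event -/
def Bad (f : V →ₗ[K] V) (U : Submodule K V) (v : V) : Prop :=
  ∃ a b : K, (a ≠ 0 ∨ b ≠ 0) ∧ a • v + b • f v ∈ U

theorem bad_count (f : V →ₗ[K] V) (U : Submodule K V) (κ : ℝ)
    (hκ : ∀ a b : K, (a ≠ 0 ∨ b ≠ 0) →
      (∑ v, if a • v + b • f v = 0 then (1 : ℝ) else 0) ≤ κ) :
    (∑ v, if Bad f U v then (1 : ℝ) else 0) ≤ (Fintype.card K : ℝ) ^ 2 * (Fintype.card K : ℝ) ^ (Module.finrank K U) * κ := by
  have h0 : 0 ≤ κ := le_trans (Finset.sum_nonneg (fun v _ => by positivity)) (hκ 1 0 (Or.inl one_ne_zero))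
  have h1 : (∑ v, if Bad f U v then (1 : ℝ) else 0)
      ≤ ∑ v : V, ∑ ab : K × K, ∑ u : V, if ((ab.1 ≠ 0 ∨ ab.2 ≠ 0) ∧ u ∈ U ∧ ab.1 • v + ab.2 • f v = u)
        then (1 : ℝ) else 0 := by
    refine Finset.sum_le_sum (fun v _ => ?_)
    by_cases hv : Bad f U v
    · rw [if_pos hv]
      obtain ⟨a, b, hab, hu⟩ := hv
      calc (1 : ℝ) = if (((a, b) : K × K).1 ≠ 0 ∨ ((a, b) : K × K).2 ≠ 0) ∧ (a • v + b • f v) ∈ U ∧
            ((a, b) : K × K).1 • v + ((a, b) : K × K).2 • f v = (a • v + b • f v) then (1 : ℝ) else 0 := by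
              rw [if_pos ⟨hab, hu, rfl⟩]
        _ ≤ ∑ u : V, if ((((a, b) : K × K).1 ≠ 0 ∨ ((a, b) : K × K).2 ≠ 0) ∧ u ∈ U ∧
            ((a, b) : K × K).1 • v + ((a, b) : K × K).2 • f v = u) then (1 : ℝ) else 0 :=
              Finset.single_le_sum (f := fun u : V => if ((((a, b) : K × K).1 ≠ 0 ∨ ((a, b) : K × K).2 ≠ 0) ∧ u ∈ U ∧
                ((a, b) : K × K).1 • v + ((a, b) : K × K).2 • f v = u) then (1 : ℝ) else 0)
                (fun u _ => by positivity) (Finset.mem_univ _)
        _ ≤ _ := Finset.single_le_sum (f := fun ab : K × K => ∑ u : V, if ((ab.1 ≠ 0 ∨ ab.2 ≠ 0) ∧ u ∈ U ∧ ab.1 • v + ab.2 • f v = u)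
              then (1 : ℝ) else 0) (fun ab _ => Finset.sum_nonneg (fun u _ => by positivity)) (Finset.mem_univ _)
    · rw [if_neg hv]
      exact Finset.sum_nonneg (fun ab _ => Finset.sum_nonneg (fun u _ => by positivity))
  refine le_trans h1 ?_
  rw [Finset.sum_comm]
  have h2 : ∀ ab : K × K, (∑ v : V, ∑ u : V, if ((ab.1 ≠ 0 ∨ ab.2 ≠ 0) ∧ u ∈ U ∧ ab.1 • v + ab.2 • f v = u)
        then (1 : ℝ) else 0) ≤ (Fintype.card K : ℝ) ^ (Module.finrank K U) * κ := by
    intro ab
    rw [Finset.sum_comm]
    by_cases hab : ab.1 ≠ 0 ∨ ab.2 ≠ 0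
    · rw [← card_sub U, Finset.sum_mul]
      refine Finset.sum_le_sum (fun u _ => ?_)
      by_cases hu : u ∈ U
      · rw [if_pos hu, one_mul]
        by_cases hex : ∃ v0, ab.1 • v0 + ab.2 • f v0 = u
        · obtain ⟨v0, hv0⟩ := hex
          refine le_trans (le_of_eq ?_) (hκ ab.1 ab.2 hab)
          refine Fintype.sum_equiv (Equiv.subRight v0) _ _ (fun v => ?_)
          congr 1
          apply propext
          simp only [Equiv.subRight_apply, map_sub, smul_sub]
          constructor
          · rintro ⟨_, _, h⟩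
            rw [← hv0] at h
            have : ab.1 • v - ab.1 • v0 + (ab.2 • f v - ab.2 • f v0)
              = (ab.1 • v + ab.2 • f v) - (ab.1 • v0 + ab.2 • f v0) := by abel
            rw [this, h, sub_self]
          · intro h
            refine ⟨hab, hu, ?_⟩
            have : ab.1 • v - ab.1 • v0 + (ab.2 • f v - ab.2 • f v0)
              = (ab.1 • v + ab.2 • f v) - (ab.1 • v0 + ab.2 • f v0) := by abel
            rw [this, sub_eq_zero, hv0] at h
            exact h
        · refine le_trans (le_of_eq ?_) h0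
          refine Finset.sum_eq_zero (fun v _ => ?_)
          rw [if_neg]
          rintro ⟨_, _, h⟩
          exact hex ⟨v, h⟩
      · rw [if_neg hu, zero_mul]
        refine le_of_eq (Finset.sum_eq_zero (fun v _ => ?_))
        rw [if_neg]; rintro ⟨_, h, _⟩; exact hu h
    · refine le_trans (le_of_eq ?_) (show (0 : ℝ) ≤ _ by positivity)
      refine Finset.sum_eq_zero (fun u _ => Finset.sum_eq_zero (fun v _ => ?_))
      rw [if_neg]; rintro ⟨h, _⟩; exact hab h
  refine le_trans (Finset.sum_le_sum (fun ab _ => h2 ab)) ?_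
  rw [Finset.sum_const, Finset.card_univ, Fintype.card_prod, nsmul_eq_mul]
  push_cast
  apply le_of_eq; ring

end lin

end Pool.Agent.V11199.RC
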