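import Mathlib
import Pool.Agent.V11199.RC.Hits

set_option linter.all false

namespace Pool.Agent.V11199.RC

open Finset Classical

variable {K V : Type} [Field K] [Fintype K] [AddCommGroup V] [Module K V] [Fintype V]


theorem finrank_sup_span_ge (U : Submodule K V) (v : V) (hv : v ∉ U) :
    Module.finrank K U + 1 ≤ Module.finrank K (U ⊔ Submodule.span K {v} : Submodule K V) := by
  haveI : FiniteDimensional K V := Module.Finite.of_finite
  apply Submodule.finrank_lt_finrank_of_lt
  refine lt_of_le_of_ne le_sup_left (fun h => hv ?_)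
  rw [h]
  exact Submodule.mem_sup_right (Submodule.mem_span_singleton_self v)

theorem range_tail (j : ℕ) (U : Submodule K V) (y : Fin (j + 1) → V) :
    U ⊔ Submodule.span K (Set.range y)
      = (U ⊔ Submodule.span K {y 0}) ⊔ Submodule.span K (Set.range (Fin.tail y)) := by
  rw [sup_assoc, ← Submodule.span_union]
  congr 2
  ext v
  simp only [Set.mem_range, Set.singleton_union, Set.mem_insert_iff]
  constructor
  · rintro ⟨i, rfl⟩
    refine Fin.cases ?_ (fun i => ?_) i
    · left; rfl
    · right; exact ⟨i, rfl⟩
  · rintro (rfl | ⟨i, rfl⟩)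
    · exact ⟨0, rfl⟩
    · exact ⟨i.succ, rfl⟩

theorem phase1_dim (f : V →ₗ[K] V) : ∀ (j : ℕ) (U : Submodule K V) (x : Fin j → V),
    Module.finrank K U + 2 * j ≤
      Module.finrank K (U ⊔ Submodule.span K (Set.range x) ⊔ Submodule.span K (Set.range (f ∘ x)) : Submodule K V)
      + 2 * hits (fun (U : Submodule K V) v => U ⊔ Submodule.span K {v} ⊔ Submodule.span K {f v})
        (Bad f) j U x := by
  haveI : FiniteDimensional K V := Module.Finite.of_finite
  intro j
  induction j with
  | zero =>
    intro U x
    have h1 : Set.range x = ∅ := by rw [Set.range_eq_empty_iff]; infer_instance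
    have h2 : Set.range (f ∘ x) = ∅ := by rw [Set.range_eq_empty_iff]; infer_instance
    rw [h1, h2, Submodule.span_empty, sup_bot_eq, sup_bot_eq]
    simp [hits]
  | succ j ih =>
    intro U x
    have e : U ⊔ Submodule.span K (Set.range x) ⊔ Submodule.span K (Set.range (f ∘ x))
        = (U ⊔ Submodule.span K {x 0} ⊔ Submodule.span K {f (x 0)})
          ⊔ Submodule.span K (Set.range (Fin.tail x)) ⊔ Submodule.span K (Set.range (f ∘ Fin.tail x)) := by
      rw [range_tail, range_tail]
      have e1 : (f ∘ x) 0 = f (x 0) := rfl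
      have e2 : Fin.tail (f ∘ x) = f ∘ Fin.tail x := rfl
      rw [e1, e2]
      apply le_antisymm
      · refine sup_le (sup_le (sup_le (sup_le ?_ ?_) ?_) ?_) ?_
        · exact le_sup_of_le_left (le_sup_of_le_left (le_sup_of_le_left le_sup_left))
        · exact le_sup_of_le_left (le_sup_of_le_left (le_sup_of_le_left le_sup_right))
        · exact le_sup_of_le_left le_sup_right
        · exact le_sup_of_le_left (le_sup_of_le_left le_sup_right)
        · exact le_sup_right
      · refine sup_le (sup_le (sup_le (sup_le ?_ ?_) ?_) ?_) ?_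
        · exact le_sup_of_le_left (le_sup_of_le_left (le_sup_of_le_left le_sup_left))
        · exact le_sup_of_le_left (le_sup_of_le_left (le_sup_of_le_left le_sup_right))
        · exact le_sup_of_le_left le_sup_right
        · exact le_sup_of_le_left (le_sup_of_le_left le_sup_right)
        · exact le_sup_right
    rw [e]
    have h := ih (U ⊔ Submodule.span K {x 0} ⊔ Submodule.span K {f (x 0)}) (Fin.tail x)
    simp only [hits]
    by_cases hb : Bad f U (x 0)
    · rw [if_pos hb]
      have h2 : Module.finrank K U ≤ Module.finrank K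
          (U ⊔ Submodule.span K {x 0} ⊔ Submodule.span K {f (x 0)} : Submodule K V) :=
        Submodule.finrank_mono (le_sup_of_le_left le_sup_left)
      omega
    · rw [if_neg hb]
      have h3 : x 0 ∉ U := fun hx => hb ⟨1, 0, Or.inl one_ne_zero, by simpa using hx⟩
      have h4 : f (x 0) ∉ U ⊔ Submodule.span K {x 0} := by
        intro hx
        obtain ⟨u, hu, w, hw, huw⟩ := Submodule.mem_sup.1 hx
        obtain ⟨c, rfl⟩ := Submodule.mem_span_singleton.1 hw
        apply hb
        refine ⟨-c, 1, Or.inr one_ne_zero, ?_⟩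
        have : (-c) • x 0 + (1 : K) • f (x 0) = u := by
          rw [← huw, one_smul, neg_smul]; abel
        rw [this]; exact hu
      have h5 := finrank_sup_span_ge U _ h3
      have h6 := finrank_sup_span_ge _ _ h4
      omega

theorem phase1 (f : V →ₗ[K] V) (κ : ℝ)
    (hκ : ∀ a b : K, (a ≠ 0 ∨ b ≠ 0) →
      (∑ v, if a • v + b • f v = 0 then (1 : ℝ) else 0) ≤ κ) (j b : ℕ) :
    (∑ x : Fin j → V, if b ≤ hits (fun (U : Submodule K V) v => U ⊔ Submodule.span K {v} ⊔ Submodule.span K {f v})
        (Bad f) j ⊥ x then (1 : ℝ) else 0)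
      ≤ 2 ^ j * ((Fintype.card K : ℝ) ^ (2 + 2 * j) * κ / Fintype.card V) ^ b * (Fintype.card V : ℝ) ^ j := by
  haveI : FiniteDimensional K V := Module.Finite.of_finite
  have hq : (1 : ℝ) ≤ (Fintype.card K : ℝ) := by exact_mod_cast Fintype.card_pos
  have hN : (0 : ℝ) < Fintype.card V := by exact_mod_cast Fintype.card_pos
  have h0 : 0 ≤ κ := le_trans (Finset.sum_nonneg (fun v _ => by positivity)) (hκ 1 0 (Or.inl one_ne_zero))
  refine hits_count (V := V) _ _ (fun i (U : Submodule K V) => Module.finrank K U + 2 * i ≤ 2 * j) _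
    (by positivity) ?_ j b ⊥ ?_
  · intro i U hU
    constructor
    · refine le_trans (bad_count f U κ hκ) ?_
      rw [div_mul_cancel₀ _ (ne_of_gt hN)]
      refine mul_le_mul_of_nonneg_right ?_ h0
      rw [← pow_add]
      apply pow_le_pow_right₀ hq
      omega
    · intro v
      have h1 := finrank_sup_span_le U v
      have h2 := finrank_sup_span_le (U ⊔ Submodule.span K {v}) (f v)
      omega
  · simp

/-- number of tuples spanning an invariant space -/
theorem far_bound (f : V →ₗ[K] V) (κ : ℝ)
    (hκ : ∀ a b : K, (a ≠ 0 ∨ b ≠ 0) →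
      (∑ v, if a • v + b • f v = 0 then (1 : ℝ) else 0) ≤ κ) (j r b h : ℕ) (hb : 1 ≤ b)
    (hh : h + 2 * b ≤ j + 2) :
    (∑ g : Fin (j + r) → V, if (∀ i, f (g i) ∈ Submodule.span K (Set.range g)) then (1 : ℝ) else 0)
      ≤ (2 ^ j * ((Fintype.card K : ℝ) ^ (2 + 2 * j) * κ / Fintype.card V) ^ b
        + 2 ^ r * ((Fintype.card K : ℝ) ^ (3 * j + r) / Fintype.card V) ^ h) * (Fintype.card V : ℝ) ^ (j + r) := by
  haveI : FiniteDimensional K V := Module.Finite.of_finite
  have hq : (1 : ℝ) ≤ (Fintype.card K : ℝ) := by exact_mod_cast Fintype.card_pos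
  have hN : (0 : ℝ) < Fintype.card V := by exact_mod_cast Fintype.card_pos
  have e1 : (∑ g : Fin (j + r) → V, if (∀ i, f (g i) ∈ Submodule.span K (Set.range g)) then (1 : ℝ) else 0)
      = ∑ x : Fin j → V, ∑ y : Fin r → V,
        if (∀ i, f (Fin.append x y i) ∈ Submodule.span K (Set.range (Fin.append x y))) then (1 : ℝ) else 0 := by
    rw [← Fintype.sum_prod_type' (fun (x : Fin j → V) (y : Fin r → V) =>
      if (∀ i, f (Fin.append x y i) ∈ Submodule.span K (Set.range (Fin.append x y))) then (1 : ℝ) else 0)]
    symm
    exact Fintype.sum_equiv (Fin.appendEquiv j r) _ _ (fun z => rfl)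
  rw [e1]
  have key : ∀ x : Fin j → V, (∑ y : Fin r → V,
        if (∀ i, f (Fin.append x y i) ∈ Submodule.span K (Set.range (Fin.append x y))) then (1 : ℝ) else 0)
      ≤ (if b ≤ hits (fun (U : Submodule K V) v => U ⊔ Submodule.span K {v} ⊔ Submodule.span K {f v})
        (Bad f) j ⊥ x then (1 : ℝ) else 0) * (Fintype.card V : ℝ) ^ r
        + 2 ^ r * ((Fintype.card K : ℝ) ^ (3 * j + r) / Fintype.card V) ^ h * (Fintype.card V : ℝ) ^ r := by
    intro x
    have hnn : (0 : ℝ) ≤ 2 ^ r * ((Fintype.card K : ℝ) ^ (3 * j + r) / Fintype.card V) ^ h * (Fintype.card V : ℝ) ^ r := by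
      positivity
    by_cases hx : b ≤ hits (fun (U : Submodule K V) v => U ⊔ Submodule.span K {v} ⊔ Submodule.span K {f v})
        (Bad f) j ⊥ x
    · rw [if_pos hx, one_mul]
      have : (∑ y : Fin r → V,
        if (∀ i, f (Fin.append x y i) ∈ Submodule.span K (Set.range (Fin.append x y))) then (1 : ℝ) else 0)
          ≤ ∑ y : Fin r → V, (1 : ℝ) := Finset.sum_le_sum (fun y _ => by split_ifs <;> norm_num)
      refine le_trans this ?_
      simp only [Finset.sum_const, Finset.card_univ, Fintype.card_pi, Finset.prod_const,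
        Fintype.card_fin, nsmul_eq_mul, mul_one]
      push_cast
      linarith
    · rw [if_neg hx, zero_mul, zero_add]
      set W := Submodule.span K (Set.range x) with hW
      set T := W ⊔ Submodule.span K (Set.range (f ∘ x)) with hT
      have hWj : Module.finrank K W ≤ j := by
        have := finrank_range_le_card (R := K) x
        simpa [Set.finrank] using this
      have hFj : Module.finrank K (Submodule.span K (Set.range (f ∘ x))) ≤ j := by
        have := finrank_range_le_card (R := K) (f ∘ x)
        simpa [Set.finrank] using this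
      have hTj : Module.finrank K T ≤ 2 * j := by
        have := Submodule.finrank_add_le_finrank_add_finrank W (Submodule.span K (Set.range (f ∘ x)))
        rw [← hT] at this
        omega
      have hd := phase1_dim f j ⊥ x
      rw [bot_sup_eq] at hd
      simp only [finrank_bot, zero_add] at hd
      rw [← hW, ← hT] at hd
      have h2 := phase2 T (j + r) (2 * j) hTj r h W (by omega) le_sup_left (by
        push Not at hx
        omega)
      have e3 : 2 * j + (j + r) = 3 * j + r := by ring
      rw [e3] at h2
      refine le_trans (Finset.sum_le_sum (fun y _ => ?_)) h2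
      by_cases hy : ∀ i, f (Fin.append x y i) ∈ Submodule.span K (Set.range (Fin.append x y))
      · have hr : Submodule.span K (Set.range (Fin.append x y)) = W ⊔ Submodule.span K (Set.range y) := by
          rw [hW, ← Submodule.span_union]
          congr 1
          ext v
          simp only [Set.mem_range, Set.mem_union]
          constructor
          · rintro ⟨i, rfl⟩
            refine Fin.addCases (fun i => ?_) (fun i => ?_) i
            · left; exact ⟨i, by simp⟩
            · right; exact ⟨i, by simp⟩
          · rintro (⟨i, rfl⟩ | ⟨i, rfl⟩)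
            · exact ⟨Fin.castAdd r i, by simp⟩
            · exact ⟨Fin.natAdd j i, by simp⟩
        have : T ≤ W ⊔ Submodule.span K (Set.range y) := by
          refine sup_le le_sup_left ?_
          rw [Submodule.span_le]
          rintro _ ⟨i, rfl⟩
          have := hy (Fin.castAdd r i)
          rw [hr] at this
          simpa using this
        rw [if_pos hy, if_pos this]
      · rw [if_neg hy]; split_ifs <;> norm_num
  refine le_trans (Finset.sum_le_sum (fun x _ => key x)) ?_
  rw [Finset.sum_add_distrib, ← Finset.sum_mul]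
  have h1 := mul_le_mul_of_nonneg_right (phase1 f κ hκ j b)
    (show (0 : ℝ) ≤ (Fintype.card V : ℝ) ^ r by positivity)
  simp only [Finset.sum_const, Finset.card_univ, Fintype.card_pi, Finset.prod_const,
        Fintype.card_fin, nsmul_eq_mul]
  push_cast
  refine le_trans (add_le_add_left h1 _) (le_of_eq ?_)
  rw [pow_add]; ring

end Pool.Agent.V11199.RC
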