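import Mathlib
import Pool.Agent.V11199.RC.Far

set_option linter.all false

namespace Pool.Agent.V11199.RC

open Finset Classical

/-- The monomial map of `(d, σ)`. -/
def mono {K : Type} [Field K] {n : ℕ} (d : Fin n → Kˣ) (σ : Equiv.Perm (Fin n)) :
    (Fin n → K) →ₗ[K] (Fin n → K) where
  toFun x i := (d i : K) * x (σ.symm i)
  map_add' x y := by ext i; simp [mul_add]
  map_smul' c x := by ext i; simp; ring

section gen

variable {K X Y : Type} [Field K] [Fintype K] [AddCommGroup X] [Module K X] [Fintype X]
  [AddCommGroup Y] [Module K Y] [Fintype Y] [DecidableEq Y]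

theorem fiber (L : X →ₗ[K] Y) (hL : Function.Surjective L) (y : Y) :
    (∑ x, if L x = y then (1 : ℝ) else 0) * Fintype.card Y = Fintype.card X := by
  have h1 : ∀ y', (∑ x, if L x = y' then (1 : ℝ) else 0) = ∑ x, if L x = y then (1 : ℝ) else 0 := by
    intro y'
    obtain ⟨x0, hx0⟩ := hL (y' - y)
    refine Fintype.sum_equiv (Equiv.subRight x0) _ _ (fun x => ?_)
    simp only [Equiv.subRight_apply, map_sub, hx0]
    congr 1
    apply propext
    constructor
    · intro h; rw [h]; abel
    · intro h
      have : L x = (L x - (y' - y)) + (y' - y) := by abel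
      rw [this, h]; abel
  have h2 : ∑ y', ∑ x, (if L x = y' then (1 : ℝ) else 0) = Fintype.card X := by
    rw [Finset.sum_comm]
    simp
  simp only [h1] at h2
  rw [Finset.sum_const, Finset.card_univ, nsmul_eq_mul] at h2
  linarith

end gen

section code

variable {K : Type} [Field K] [Fintype K] {n : ℕ}


theorem cardV : (Fintype.card (Fin n → K) : ℝ) = (Fintype.card K : ℝ) ^ n := by
  simp

theorem comb_count {k : ℕ} (a : Fin k → K) (ha : a ≠ 0) (v : Fin n → K) :
    (∑ g : Fin k → Fin n → K, if (∑ i, a i • g i) = v then (1 : ℝ) else 0) * (Fintype.card K : ℝ) ^ n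
      = ((Fintype.card K : ℝ) ^ n) ^ k := by
  obtain ⟨i0, hi0⟩ : ∃ i, a i ≠ 0 := by
    by_contra h; push Not at h; exact ha (funext h)
  have := fiber (K := K) (X := Fin k → Fin n → K) (Y := Fin n → K)
    { toFun := fun g => ∑ i, a i • g i
      map_add' := by intro x y; simp [smul_add, Finset.sum_add_distrib]
      map_smul' := by
        intro c x
        simp only [Pi.smul_apply, RingHom.id_apply, Finset.smul_sum]
        exact Finset.sum_congr rfl (fun i _ => by rw [smul_comm]) } ?_ v
  · simp only [LinearMap.coe_mk, AddHom.coe_mk] at this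
    rw [cardV] at this
    rw [this]
    simp
  · intro y
    refine ⟨Pi.single i0 ((a i0)⁻¹ • y), ?_⟩
    simp only [LinearMap.coe_mk, AddHom.coe_mk]
    rw [Finset.sum_eq_single i0]
    · simp [smul_smul, mul_inv_cancel₀ hi0]
    · intro j _ hj
      rw [Pi.single_eq_of_ne hj, smul_zero]
    · intro h; exact absurd (Finset.mem_univ _) h

theorem func_count {k : ℕ} (l : (Fin n → K) →ₗ[K] K) (hl : l ≠ 0) :
    (∑ g : Fin k → Fin n → K, if (∀ i, l (g i) = 0) then (1 : ℝ) else 0) * (Fintype.card K : ℝ) ^ k
      = ((Fintype.card K : ℝ) ^ n) ^ k := by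
  obtain ⟨x0, hx0⟩ : ∃ x, l x ≠ 0 := by
    by_contra h; push Not at h; exact hl (LinearMap.ext h)
  have := fiber (K := K) (X := Fin k → Fin n → K) (Y := Fin k → K)
    { toFun := fun g i => l (g i)
      map_add' := by intro x y; ext i; simp
      map_smul' := by intro c x; ext i; simp } ?_ 0
  · simp only [LinearMap.coe_mk, AddHom.coe_mk] at this
    rw [cardV] at this
    have e : ∀ g : Fin k → Fin n → K, ((fun i => l (g i)) = 0) ↔ ∀ i, l (g i) = 0 := by
      intro g; exact funext_iff
    simp only [e] at this
    rw [this]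
    simp
  · intro y
    refine ⟨fun i => (y i * (l x0)⁻¹) • x0, ?_⟩
    simp only [LinearMap.coe_mk, AddHom.coe_mk]
    ext i
    simp [mul_assoc, inv_mul_cancel₀ hx0]

/-- Hamming weight -/
noncomputable def wt (v : Fin n → K) : ℕ := (Finset.univ.filter (fun i => v i ≠ 0)).card

theorem wt_count (w : ℕ) (z : ℝ) (z0 : 0 < z) (z1 : z ≤ 1) :
    (∑ v : Fin n → K, if wt v ≤ w then (1 : ℝ) else 0) ≤ (1 + ((Fintype.card K : ℝ) - 1) * z) ^ n * (1 / z) ^ w := by
  have h1 : ∑ v : Fin n → K, ∏ i, (if v i = 0 then (1 : ℝ) else z) = (1 + ((Fintype.card K : ℝ) - 1) * z) ^ n := by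
    have := Finset.prod_univ_sum (fun _ : Fin n => (Finset.univ : Finset K))
      (fun _ a => if a = 0 then (1 : ℝ) else z)
    simp only [Fintype.piFinset_univ] at this
    rw [← this, Finset.prod_const, Finset.card_univ, Fintype.card_fin]
    congr 1
    rw [← Finset.add_sum_erase _ _ (Finset.mem_univ (0 : K))]
    rw [if_pos rfl]
    congr 1
    rw [Finset.sum_congr rfl (g := fun _ => z) (fun x hx => by rw [if_neg (Finset.ne_of_mem_erase hx)])]
    rw [Finset.sum_const, Finset.card_erase_of_mem (Finset.mem_univ _), Finset.card_univ,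
      nsmul_eq_mul, Nat.cast_sub Fintype.card_pos, Nat.cast_one]
  rw [← h1, Finset.sum_mul]
  refine Finset.sum_le_sum (fun v _ => ?_)
  have h2 : ∏ i, (if v i = 0 then (1 : ℝ) else z) = z ^ (wt v) := by
    rw [Finset.prod_ite, Finset.prod_const_one, one_mul, Finset.prod_const]; rfl
  rw [h2]
  by_cases hv : wt v ≤ w
  · rw [if_pos hv]
    calc (1 : ℝ) = z ^ w * (1 / z) ^ w := by
          rw [← mul_pow, mul_one_div, div_self (ne_of_gt z0), one_pow]
      _ ≤ z ^ (wt v) * (1 / z) ^ w :=
        mul_le_mul_of_nonneg_right (pow_le_pow_of_le_one z0.le z1 hv) (by positivity)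
  · rw [if_neg hv]; positivity

/-- coordinates not multiplied by `c` in place -/
noncomputable def moved (d : Fin n → Kˣ) (σ : Equiv.Perm (Fin n)) (c : Kˣ) : ℕ :=
  (Finset.univ.filter (fun i => ¬ (σ i = i ∧ d i = c))).card

theorem indep_half (σ : Equiv.Perm (Fin n)) :
    ∃ Z : Finset (Fin n), (∀ i ∈ Z, σ i ≠ i) ∧ (∀ i ∈ Z, σ.symm i ∉ Z) ∧
      (Finset.univ.filter (fun i => σ i ≠ i)).card ≤ 3 * Z.card := by
  obtain ⟨Z, hZ, hmax⟩ := Finset.exists_max_image
    ((Finset.univ : Finset (Finset (Fin n))).filter
      (fun Z => (∀ i ∈ Z, σ i ≠ i) ∧ (∀ i ∈ Z, σ.symm i ∉ Z))) Finset.card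
    ⟨∅, by simp⟩
  simp only [Finset.mem_filter, Finset.mem_univ, true_and] at hZ hmax
  refine ⟨Z, hZ.1, hZ.2, ?_⟩
  have hsub : (Finset.univ.filter (fun i => σ i ≠ i)) ⊆ Z ∪ Z.image σ ∪ Z.image σ.symm := by
    intro i hi
    simp only [Finset.mem_filter, Finset.mem_univ, true_and] at hi
    by_contra hcon
    simp only [Finset.mem_union, Finset.mem_image, not_or, not_exists, not_and] at hcon
    obtain ⟨⟨h1, h2⟩, h3⟩ := hcon
    have := hmax (insert i Z) ⟨?_, ?_⟩
    · rw [Finset.card_insert_of_notMem h1] at this; omega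
    · intro x hx
      rcases Finset.mem_insert.1 hx with rfl | hx
      · exact hi
      · exact hZ.1 x hx
    · intro x hx hx2
      rcases Finset.mem_insert.1 hx with rfl | hx
      · rcases Finset.mem_insert.1 hx2 with h | h
        · apply hi
          rw [Equiv.symm_apply_eq] at h
          exact h.symm
        · exact h2 _ h (by simp)
      · rcases Finset.mem_insert.1 hx2 with h | h
        · exact h3 x hx h
        · exact hZ.2 x hx h
  refine le_trans (Finset.card_le_card hsub) ?_
  refine le_trans (Finset.card_union_le _ _) ?_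
  have h1 := Finset.card_union_le Z (Z.image σ)
  have h2 : (Z.image σ).card ≤ Z.card := Finset.card_image_le
  have h3 : (Z.image σ.symm).card ≤ Z.card := Finset.card_image_le
  omega

theorem ker_count (d : Fin n → Kˣ) (σ : Equiv.Perm (Fin n)) (m : ℕ)
    (hm : ∀ c : Kˣ, 3 * m ≤ moved d σ c) (hmn : m ≤ n) (a b : K) (hab : a ≠ 0 ∨ b ≠ 0) :
    (∑ v : Fin n → K, if a • v + b • mono d σ v = 0 then (1 : ℝ) else 0) ≤ (Fintype.card K : ℝ) ^ (n - m) := by
  have hq : (1 : ℝ) ≤ (Fintype.card K : ℝ) := by exact_mod_cast Fintype.card_pos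
  have hone : ∀ (P : (Fin n → K) → Prop) [DecidablePred P], (∀ v, P v → v = 0) →
      (∑ v : Fin n → K, if P v then (1 : ℝ) else 0) ≤ (Fintype.card K : ℝ) ^ (n - m) := by
    intro P _ hP
    calc (∑ v : Fin n → K, if P v then (1 : ℝ) else 0)
        ≤ ∑ v : Fin n → K, if v = 0 then (1 : ℝ) else 0 := by
          refine Finset.sum_le_sum (fun v _ => ?_)
          by_cases h : P v
          · rw [if_pos h, if_pos (hP v h)]
          · rw [if_neg h]; split_ifs <;> norm_num
      _ = 1 := by simp
      _ ≤ _ := one_le_pow₀ hq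
  by_cases hb : b = 0
  · subst hb
    have ha : a ≠ 0 := by simpa using hab
    apply hone
    intro v hv
    simp only [zero_smul, add_zero, smul_eq_zero] at hv
    exact hv.resolve_left ha
  by_cases ha : a = 0
  · subst ha
    apply hone
    intro v hv
    simp only [zero_smul, zero_add, smul_eq_zero] at hv
    have h2 := hv.resolve_left hb
    ext i
    have := congrFun h2 (σ i)
    simp [mono] at this
    exact this
  · -- main case
    have hc0 : -(a / b) ≠ 0 := neg_ne_zero.2 (div_ne_zero ha hb)
    set c : Kˣ := Units.mk0 _ hc0 with hc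
    obtain ⟨Z, hZ1, hZ2, hZ3⟩ := indep_half σ
    set F := Finset.univ.filter (fun i => σ i = i ∧ d i ≠ c) with hF
    have hdis : Disjoint Z F := by
      rw [Finset.disjoint_left]
      intro i hi hi2
      simp only [hF, Finset.mem_filter, Finset.mem_univ, true_and] at hi2
      exact hZ1 i hi hi2.1
    have hcard : m ≤ (Z ∪ F).card := by
      rw [Finset.card_union_of_disjoint hdis]
      have h1 := hm c
      have h2 : moved d σ c ≤ (Finset.univ.filter (fun i => σ i ≠ i)).card + F.card := by
        unfold moved
        refine le_trans (Finset.card_le_card ?_) (Finset.card_union_le _ _)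
        intro i hi
        simp only [Finset.mem_filter, Finset.mem_univ, true_and, not_and, Finset.mem_union, hF] at hi ⊢
        by_cases h : σ i = i
        · right; exact ⟨h, hi h⟩
        · left; exact h
      omega
    have hinj : ∀ v w : Fin n → K, a • v + b • mono d σ v = 0 → a • w + b • mono d σ w = 0 →
        (∀ i, i ∉ Z ∪ F → v i = w i) → v = w := by
      intro v w hv hw h
      have hrel : ∀ u : Fin n → K, a • u + b • mono d σ u = 0 → ∀ i, (d i : K) * u (σ.symm i) = c * u i := by
        intro u hu i
        have := congrFun hu i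
        simp [mono] at this
        have hcv : (c : K) = -(a / b) := rfl
        rw [hcv]
        have h3 : b * ((d i : K) * u (σ.symm i)) = -(a * u i) := by linear_combination this
        field_simp
        linear_combination h3
      ext i
      by_cases hi : i ∈ Z ∪ F
      · rcases Finset.mem_union.1 hi with hz | hf
        · have h1 : σ.symm i ∉ Z ∪ F := by
            intro h4
            rcases Finset.mem_union.1 h4 with h5 | h5
            · exact hZ2 i hz h5
            · simp only [hF, Finset.mem_filter, Finset.mem_univ, true_and, Equiv.apply_symm_apply] at h5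
              apply hZ1 i hz
              have := h5.1
              rw [eq_comm, Equiv.symm_apply_eq] at this
              exact this.symm
          have e1 := hrel v hv i
          have e2 := hrel w hw i
          rw [h _ h1] at e1
          have : (c : K) * v i = c * w i := by rw [← e1, ← e2]
          exact mul_left_cancel₀ c.ne_zero this
        · simp only [hF, Finset.mem_filter, Finset.mem_univ, true_and] at hf
          have hsi : σ.symm i = i := by rw [Equiv.symm_apply_eq]; exact hf.1.symm
          have hz0 : ∀ u : Fin n → K, a • u + b • mono d σ u = 0 → u i = 0 := by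
            intro u hu
            have := hrel u hu i
            rw [hsi] at this
            have h5 : ((d i : K) - c) * u i = 0 := by linear_combination this
            rcases mul_eq_zero.1 h5 with h6 | h6
            · exact absurd (Units.ext (sub_eq_zero.1 h6)) hf.2
            · exact h6
          rw [hz0 v hv, hz0 w hw]
      · exact h i hi
    rw [Finset.sum_boole]
    have h7 : (Finset.univ.filter (fun v : Fin n → K => a • v + b • mono d σ v = 0)).card
        ≤ (Finset.univ : Finset ({i // i ∉ Z ∪ F} → K)).card := by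
      refine Finset.card_le_card_of_injOn (fun v i => v i.1) (fun _ _ => Finset.mem_coe.2 (Finset.mem_univ _)) ?_
      intro v hv w hw hvw
      simp only [Finset.coe_filter, Finset.mem_univ, true_and, Set.mem_setOf_eq] at hv hw
      exact hinj v w hv hw (fun i hi => congrFun hvw ⟨i, hi⟩)
    have h8 : (Finset.univ : Finset ({i // i ∉ Z ∪ F} → K)).card
        = Fintype.card K ^ (n - (Z ∪ F).card) := by
      rw [Finset.card_univ, Fintype.card_fun]
      congr 1
      rw [Fintype.card_subtype_compl, Fintype.card_fin, Fintype.card_coe]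
    rw [h8] at h7
    calc ((Finset.univ.filter (fun v : Fin n → K => a • v + b • mono d σ v = 0)).card : ℝ)
        ≤ ((Fintype.card K ^ (n - (Z ∪ F).card) : ℕ) : ℝ) := by exact_mod_cast h7
      _ = (Fintype.card K : ℝ) ^ (n - (Z ∪ F).card) := by push_cast; rfl
      _ ≤ _ := pow_le_pow_right₀ hq (by omega)

end code

end Pool.Agent.V11199.RC
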