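import Mathlib
import Pool.Agent.V11199.RC.Code

set_option linter.all false

namespace Pool.Agent.V11199.RC

open Finset Classical

variable {K : Type} [Field K] [Fintype K] {n : ℕ}


/-- every monomial automorphism of `C` is scalar -/
def OnlyScalars (C : Submodule K (Fin n → K)) : Prop :=
  ∀ (d : Fin n → Kˣ) (σ : Equiv.Perm (Fin n)), C.map (mono d σ) = C →
    ∃ c : Kˣ, ∀ x, mono d σ x = (c : K) • x

/-- test functional -/
def tf (i j : Fin n) (a b : K) : (Fin n → K) →ₗ[K] K where
  toFun x := a * x i - b * x j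
  map_add' x y := by simp; ring
  map_smul' c x := by simp; ring

theorem bad_bound (j r m b h : ℕ) (hb : 1 ≤ b) (hh : h + 2 * b ≤ j + 2) (hmn : m ≤ n) :
    (∑ g : Fin (j + r) → Fin n → K,
      if LinearIndependent K g ∧ ¬ OnlyScalars (Submodule.span K (Set.range g)) then (1 : ℝ) else 0)
    ≤ ((Fintype.card K : ℝ) ^ (j + r) * (∑ v : Fin n → K, if wt v ≤ 3 * m then (1 : ℝ) else 0) / (Fintype.card K : ℝ) ^ n
      + (n : ℝ) ^ 2 * (Fintype.card K : ℝ) ^ 2 / (Fintype.card K : ℝ) ^ (j + r)
      + (Nat.factorial n : ℝ) * (Fintype.card K : ℝ) ^ n * (2 ^ j * ((Fintype.card K : ℝ) ^ (2 + 2 * j) * (Fintype.card K : ℝ) ^ (n - m) / (Fintype.card K : ℝ) ^ n) ^ b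
        + 2 ^ r * ((Fintype.card K : ℝ) ^ (3 * j + r) / (Fintype.card K : ℝ) ^ n) ^ h)) * ((Fintype.card K : ℝ) ^ n) ^ (j + r) := by
  have hq : (0 : ℝ) < (Fintype.card K : ℝ) := by exact_mod_cast Fintype.card_pos
  set T1 : (Fin (j + r) → Fin n → K) → ℝ := fun g =>
    ∑ a : Fin (j + r) → K, ∑ v : Fin n → K,
      if (a ≠ 0 ∧ wt v ≤ 3 * m ∧ (∑ i, a i • g i) = v) then (1 : ℝ) else 0 with hT1
  set T2 : (Fin (j + r) → Fin n → K) → ℝ := fun g =>
    ∑ z : Fin n × Fin n × K × K, if (tf z.1 z.2.1 z.2.2.1 z.2.2.2 ≠ 0 ∧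
      ∀ i, tf z.1 z.2.1 z.2.2.1 z.2.2.2 (g i) = 0) then (1 : ℝ) else 0 with hT2
  set T3 : (Fin (j + r) → Fin n → K) → ℝ := fun g =>
    ∑ z : (Fin n → Kˣ) × Equiv.Perm (Fin n), if ((∀ c : Kˣ, 3 * m ≤ moved z.1 z.2 c) ∧
      ∀ i, mono z.1 z.2 (g i) ∈ Submodule.span K (Set.range g)) then (1 : ℝ) else 0 with hT3
  have n1 : ∀ g, 0 ≤ T1 g := fun g => Finset.sum_nonneg (fun a _ => Finset.sum_nonneg (fun v _ => by positivity))
  have n2 : ∀ g, 0 ≤ T2 g := fun g => Finset.sum_nonneg (fun a _ => by positivity)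
  have n3 : ∀ g, 0 ≤ T3 g := fun g => Finset.sum_nonneg (fun a _ => by positivity)
  have hle : ∀ g : Fin (j + r) → Fin n → K,
      (if LinearIndependent K g ∧ ¬ OnlyScalars (Submodule.span K (Set.range g)) then (1 : ℝ) else 0)
        ≤ T1 g + T2 g + T3 g := by
    intro g
    by_cases hg : LinearIndependent K g ∧ ¬ OnlyScalars (Submodule.span K (Set.range g))
    · rw [if_pos hg]
      obtain ⟨_, hns⟩ := hg
      unfold OnlyScalars at hns
      push Not at hns
      obtain ⟨d, σ, hmap, hnon⟩ := hns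
      have hinv : ∀ x ∈ Submodule.span K (Set.range g), mono d σ x ∈ Submodule.span K (Set.range g) := by
        intro x hx
        have : mono d σ x ∈ (Submodule.span K (Set.range g)).map (mono d σ) :=
          Submodule.mem_map_of_mem hx
        rw [hmap] at this; exact this
      have hgi : ∀ i, g i ∈ Submodule.span K (Set.range g) :=
        fun i => Submodule.subset_span ⟨i, rfl⟩
      by_cases hfar : ∀ c : Kˣ, 3 * m ≤ moved d σ c
      · have : (1 : ℝ) ≤ T3 g := by
          rw [hT3]
          calc (1 : ℝ) = if ((∀ c : Kˣ, 3 * m ≤ moved ((d, σ) : (Fin n → Kˣ) × Equiv.Perm (Fin n)).1 ((d, σ) : (Fin n → Kˣ) × Equiv.Perm (Fin n)).2 c) ∧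
              ∀ i, mono ((d, σ) : (Fin n → Kˣ) × Equiv.Perm (Fin n)).1 ((d, σ) : (Fin n → Kˣ) × Equiv.Perm (Fin n)).2 (g i) ∈ Submodule.span K (Set.range g)) then (1 : ℝ) else 0 := by
                rw [if_pos ⟨hfar, fun i => hinv _ (hgi i)⟩]
            _ ≤ _ := Finset.single_le_sum (f := fun z : (Fin n → Kˣ) × Equiv.Perm (Fin n) => if ((∀ c : Kˣ, 3 * m ≤ moved z.1 z.2 c) ∧
                ∀ i, mono z.1 z.2 (g i) ∈ Submodule.span K (Set.range g)) then (1 : ℝ) else 0)
                (fun z _ => by positivity) (Finset.mem_univ _)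
        linarith [n1 g, n2 g]
      · push Not at hfar
        obtain ⟨c, hc⟩ := hfar
        by_cases hx : ∃ x ∈ Submodule.span K (Set.range g), mono d σ x - (c : K) • x ≠ 0
        · obtain ⟨x, hxC, hx0⟩ := hx
          set v := mono d σ x - (c : K) • x with hv
          have hvC : v ∈ Submodule.span K (Set.range g) :=
            Submodule.sub_mem _ (hinv x hxC) (Submodule.smul_mem _ _ hxC)
          have hwt : wt v ≤ 3 * m := by
            refine le_trans ?_ hc.le
            unfold wt moved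
            apply Finset.card_le_card
            intro i hi
            simp only [Finset.mem_filter, Finset.mem_univ, true_and] at hi ⊢
            rintro ⟨h1, h2⟩
            apply hi
            have h3 : σ.symm i = i := by rw [Equiv.symm_apply_eq]; exact h1.symm
            simp [hv, mono, h3, h2]
          obtain ⟨a, ha⟩ := (Submodule.mem_span_range_iff_exists_fun K).1 hvC
          have ha0 : a ≠ 0 := by
            rintro rfl
            apply hx0
            rw [← ha]; simp
          have : (1 : ℝ) ≤ T1 g := by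
            rw [hT1]
            calc (1 : ℝ) = if (a ≠ 0 ∧ wt v ≤ 3 * m ∧ (∑ i, a i • g i) = v) then (1 : ℝ) else 0 := by
                  rw [if_pos ⟨ha0, hwt, ha⟩]
              _ ≤ ∑ v : Fin n → K, if (a ≠ 0 ∧ wt v ≤ 3 * m ∧ (∑ i, a i • g i) = v) then (1 : ℝ) else 0 :=
                Finset.single_le_sum (f := fun v : Fin n → K => if (a ≠ 0 ∧ wt v ≤ 3 * m ∧ (∑ i, a i • g i) = v) then (1 : ℝ) else 0)
                  (fun z _ => by positivity) (Finset.mem_univ _)
              _ ≤ _ := Finset.single_le_sum (f := fun a : Fin (j + r) → K => ∑ v : Fin n → K, if (a ≠ 0 ∧ wt v ≤ 3 * m ∧ (∑ i, a i • g i) = v) then (1 : ℝ) else 0)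
                  (fun z _ => Finset.sum_nonneg (fun _ _ => by positivity)) (Finset.mem_univ _)
          linarith [n2 g, n3 g]
        · push Not at hx
          have h5 := hnon c
          obtain ⟨x, hx2⟩ := h5
          have : ∃ i, mono d σ x i ≠ ((c : K) • x) i := by
            by_contra hcon; push Not at hcon; exact hx2 (funext hcon)
          obtain ⟨i, hi⟩ := this
          have htf : ∀ y, tf (σ.symm i) i (d i : K) (c : K) y = (mono d σ y - (c : K) • y) i := by
            intro y; simp [tf, mono]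
          have hne : tf (σ.symm i) i (d i : K) (c : K) ≠ 0 := by
            intro h0
            have := htf x
            rw [h0] at this
            simp only [LinearMap.zero_apply, Pi.sub_apply] at this
            exact hi (sub_eq_zero.1 this.symm)
          have : (1 : ℝ) ≤ T2 g := by
            rw [hT2]
            calc (1 : ℝ) = if (tf ((σ.symm i, i, (d i : K), (c : K)) : Fin n × Fin n × K × K).1
                  ((σ.symm i, i, (d i : K), (c : K)) : Fin n × Fin n × K × K).2.1
                  ((σ.symm i, i, (d i : K), (c : K)) : Fin n × Fin n × K × K).2.2.1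
                  ((σ.symm i, i, (d i : K), (c : K)) : Fin n × Fin n × K × K).2.2.2 ≠ 0 ∧
                  ∀ t, tf ((σ.symm i, i, (d i : K), (c : K)) : Fin n × Fin n × K × K).1
                  ((σ.symm i, i, (d i : K), (c : K)) : Fin n × Fin n × K × K).2.1
                  ((σ.symm i, i, (d i : K), (c : K)) : Fin n × Fin n × K × K).2.2.1
                  ((σ.symm i, i, (d i : K), (c : K)) : Fin n × Fin n × K × K).2.2.2 (g t) = 0) then (1 : ℝ) else 0 := by
                    rw [if_pos]
                    refine ⟨hne, fun t => ?_⟩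
                    simp only
                    rw [htf, hx _ (hgi t)]; rfl
              _ ≤ _ := Finset.single_le_sum (f := fun z : Fin n × Fin n × K × K => if (tf z.1 z.2.1 z.2.2.1 z.2.2.2 ≠ 0 ∧
                  ∀ i, tf z.1 z.2.1 z.2.2.1 z.2.2.2 (g i) = 0) then (1 : ℝ) else 0)
                  (fun z _ => by positivity) (Finset.mem_univ _)
          linarith [n1 g, n3 g]
    · rw [if_neg hg]; linarith [n1 g, n2 g, n3 g]
  refine le_trans (Finset.sum_le_sum (fun g _ => hle g)) ?_
  rw [Finset.sum_add_distrib, Finset.sum_add_distrib]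
  have b1 : ∑ g, T1 g ≤ (Fintype.card K : ℝ) ^ (j + r) * (∑ v : Fin n → K, if wt v ≤ 3 * m then (1 : ℝ) else 0) / (Fintype.card K : ℝ) ^ n
      * ((Fintype.card K : ℝ) ^ n) ^ (j + r) := by
    rw [hT1]
    simp only
    rw [Finset.sum_comm]
    have : ∀ a : Fin (j + r) → K, (∑ g : Fin (j + r) → Fin n → K, ∑ v : Fin n → K,
        if (a ≠ 0 ∧ wt v ≤ 3 * m ∧ (∑ i, a i • g i) = v) then (1 : ℝ) else 0)
        ≤ (∑ v : Fin n → K, if wt v ≤ 3 * m then (1 : ℝ) else 0) / (Fintype.card K : ℝ) ^ n * ((Fintype.card K : ℝ) ^ n) ^ (j + r) := by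
      intro a
      rw [Finset.sum_comm, Finset.sum_div, Finset.sum_mul]
      refine Finset.sum_le_sum (fun v _ => ?_)
      by_cases ha : a ≠ 0
      · by_cases hv : wt v ≤ 3 * m
        · rw [if_pos hv]
          have h6 := comb_count a ha v
          have h7 : (∑ g : Fin (j + r) → Fin n → K, if (a ≠ 0 ∧ wt v ≤ 3 * m ∧ (∑ i, a i • g i) = v) then (1 : ℝ) else 0)
              = ∑ g : Fin (j + r) → Fin n → K, if (∑ i, a i • g i) = v then (1 : ℝ) else 0 := by
            refine Finset.sum_congr rfl (fun g _ => ?_)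
            congr 1
            apply propext
            exact ⟨fun h => h.2.2, fun h => ⟨ha, hv, h⟩⟩
          rw [h7]
          have h8 : (0 : ℝ) < (Fintype.card K : ℝ) ^ n := by positivity
          rw [← h6]
          apply le_of_eq
          field_simp
        · rw [if_neg hv, zero_div, zero_mul]
          refine le_of_eq (Finset.sum_eq_zero (fun g _ => ?_))
          rw [if_neg]; rintro ⟨_, h, _⟩; exact hv h
      · have : (∑ g : Fin (j + r) → Fin n → K, if (a ≠ 0 ∧ wt v ≤ 3 * m ∧ (∑ i, a i • g i) = v) then (1 : ℝ) else 0) = 0 := by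
          refine Finset.sum_eq_zero (fun g _ => ?_)
          rw [if_neg]; rintro ⟨h, _⟩; exact ha h
        rw [this]; positivity
    refine le_trans (Finset.sum_le_sum (fun a _ => this a)) ?_
    rw [Finset.sum_const, Finset.card_univ, nsmul_eq_mul, Fintype.card_fun, Fintype.card_fin]
    push_cast
    apply le_of_eq; ring
  have b2 : ∑ g, T2 g ≤ (n : ℝ) ^ 2 * (Fintype.card K : ℝ) ^ 2 / (Fintype.card K : ℝ) ^ (j + r) * ((Fintype.card K : ℝ) ^ n) ^ (j + r) := by
    rw [hT2]
    simp only
    rw [Finset.sum_comm]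
    have : ∀ z : Fin n × Fin n × K × K, (∑ g : Fin (j + r) → Fin n → K,
        if (tf z.1 z.2.1 z.2.2.1 z.2.2.2 ≠ 0 ∧
      ∀ i, tf z.1 z.2.1 z.2.2.1 z.2.2.2 (g i) = 0) then (1 : ℝ) else 0) ≤ ((Fintype.card K : ℝ) ^ n) ^ (j + r) / (Fintype.card K : ℝ) ^ (j + r) := by
      intro z
      by_cases hz : tf z.1 z.2.1 z.2.2.1 z.2.2.2 ≠ 0
      · have h6 := func_count (k := j + r) (tf z.1 z.2.1 z.2.2.1 z.2.2.2) hz
        rw [le_div_iff₀ (by positivity), ← h6]
        refine mul_le_mul_of_nonneg_right (Finset.sum_le_sum (fun g _ => ?_)) (by positivity)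
        by_cases hh : ∀ i, tf z.1 z.2.1 z.2.2.1 z.2.2.2 (g i) = 0
        · rw [if_pos ⟨hz, hh⟩, if_pos hh]
        · rw [if_neg (fun h => hh h.2), if_neg hh]
      · have : (∑ g : Fin (j + r) → Fin n → K, if (tf z.1 z.2.1 z.2.2.1 z.2.2.2 ≠ 0 ∧
            ∀ i, tf z.1 z.2.1 z.2.2.1 z.2.2.2 (g i) = 0) then (1 : ℝ) else 0) = 0 := by
          refine Finset.sum_eq_zero (fun g _ => ?_)
          rw [if_neg]; rintro ⟨h, _⟩; exact hz h
        rw [this]; positivity
    refine le_trans (Finset.sum_le_sum (fun a _ => this a)) ?_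
    rw [Finset.sum_const, Finset.card_univ, nsmul_eq_mul]
    simp only [Fintype.card_prod, Fintype.card_fin]
    push_cast
    apply le_of_eq; ring
  have b3 : ∑ g, T3 g ≤ (Nat.factorial n : ℝ) * (Fintype.card K : ℝ) ^ n * (2 ^ j * ((Fintype.card K : ℝ) ^ (2 + 2 * j) * (Fintype.card K : ℝ) ^ (n - m) / (Fintype.card K : ℝ) ^ n) ^ b
        + 2 ^ r * ((Fintype.card K : ℝ) ^ (3 * j + r) / (Fintype.card K : ℝ) ^ n) ^ h) * ((Fintype.card K : ℝ) ^ n) ^ (j + r) := by
    rw [hT3]
    simp only
    rw [Finset.sum_comm]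
    set A : ℝ := (2 ^ j * ((Fintype.card K : ℝ) ^ (2 + 2 * j) * (Fintype.card K : ℝ) ^ (n - m) / (Fintype.card K : ℝ) ^ n) ^ b
        + 2 ^ r * ((Fintype.card K : ℝ) ^ (3 * j + r) / (Fintype.card K : ℝ) ^ n) ^ h) with hA
    have hA0 : 0 ≤ A := by positivity
    have : ∀ z : (Fin n → Kˣ) × Equiv.Perm (Fin n), (∑ g : Fin (j + r) → Fin n → K,
        if ((∀ c : Kˣ, 3 * m ≤ moved z.1 z.2 c) ∧
      ∀ i, mono z.1 z.2 (g i) ∈ Submodule.span K (Set.range g)) then (1 : ℝ) else 0)
        ≤ A * ((Fintype.card K : ℝ) ^ n) ^ (j + r) := by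
      intro z
      by_cases hz : ∀ c : Kˣ, 3 * m ≤ moved z.1 z.2 c
      · have h6 := far_bound (mono z.1 z.2) ((Fintype.card K : ℝ) ^ (n - m))
          (fun a b hab => by
            have := ker_count z.1 z.2 m hz hmn a b hab
            convert this) j r b h hb hh
        rw [cardV] at h6
        refine le_trans (Finset.sum_le_sum (fun g _ => ?_)) h6
        by_cases hh : ∀ i, mono z.1 z.2 (g i) ∈ Submodule.span K (Set.range g)
        · rw [if_pos ⟨hz, hh⟩, if_pos hh]
        · rw [if_neg (fun h => hh h.2), if_neg hh]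
      · have : (∑ g : Fin (j + r) → Fin n → K, if ((∀ c : Kˣ, 3 * m ≤ moved z.1 z.2 c) ∧
            ∀ i, mono z.1 z.2 (g i) ∈ Submodule.span K (Set.range g)) then (1 : ℝ) else 0) = 0 := by
          refine Finset.sum_eq_zero (fun g _ => ?_)
          rw [if_neg]; rintro ⟨h, _⟩; exact hz h
        rw [this]; positivity
    refine le_trans (Finset.sum_le_sum (fun a _ => this a)) ?_
    rw [Finset.sum_const, Finset.card_univ, nsmul_eq_mul]
    simp only [Fintype.card_prod, Fintype.card_fun, Fintype.card_fin, Fintype.card_perm]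
    have hu : ((Fintype.card Kˣ ^ n : ℕ) : ℝ) ≤ (Fintype.card K : ℝ) ^ n := by
      push_cast
      apply pow_le_pow_left₀ (by positivity)
      have : Fintype.card Kˣ ≤ Fintype.card K := Fintype.card_le_of_injective _ Units.val_injective
      exact_mod_cast this
    have h9 : (0 : ℝ) ≤ A * ((Fintype.card K : ℝ) ^ n) ^ (j + r) := by positivity
    rw [Nat.cast_mul]
    calc ((Fintype.card Kˣ ^ n : ℕ) : ℝ) * (Nat.factorial n : ℝ) * (A * ((Fintype.card K : ℝ) ^ n) ^ (j + r))
        ≤ (Fintype.card K : ℝ) ^ n * (Nat.factorial n : ℝ) * (A * ((Fintype.card K : ℝ) ^ n) ^ (j + r)) := by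
          apply mul_le_mul_of_nonneg_right _ h9
          exact mul_le_mul_of_nonneg_right hu (by positivity)
      _ = _ := by ring
  refine le_trans (add_le_add (add_le_add b1 b2) b3) (le_of_eq ?_)
  ring

theorem dep_bound (k : ℕ) :
    (∑ g : Fin k → Fin n → K, if ¬ LinearIndependent K g then (1 : ℝ) else 0)
      ≤ (Fintype.card K : ℝ) ^ k / (Fintype.card K : ℝ) ^ n * ((Fintype.card K : ℝ) ^ n) ^ k := by
  have hq : (0 : ℝ) < (Fintype.card K : ℝ) := by exact_mod_cast Fintype.card_pos
  have h1 : (∑ g : Fin k → Fin n → K, if ¬ LinearIndependent K g then (1 : ℝ) else 0)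
      ≤ ∑ g : Fin k → Fin n → K, ∑ a : Fin k → K, if (a ≠ 0 ∧ (∑ i, a i • g i) = 0) then (1 : ℝ) else 0 := by
    refine Finset.sum_le_sum (fun g _ => ?_)
    by_cases hg : LinearIndependent K g
    · rw [if_neg (not_not.2 hg)]
      exact Finset.sum_nonneg (fun a _ => by positivity)
    · rw [if_pos hg]
      rw [Fintype.linearIndependent_iff] at hg
      push Not at hg
      obtain ⟨a, ha, i, hi⟩ := hg
      have ha0 : a ≠ 0 := fun h => hi (by rw [h]; rfl)
      calc (1 : ℝ) = if (a ≠ 0 ∧ (∑ i, a i • g i) = 0) then (1 : ℝ) else 0 := by rw [if_pos ⟨ha0, ha⟩]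
        _ ≤ _ := Finset.single_le_sum (f := fun a : Fin k → K => if (a ≠ 0 ∧ (∑ i, a i • g i) = 0) then (1 : ℝ) else 0)
          (fun z _ => by positivity) (Finset.mem_univ _)
  refine le_trans h1 ?_
  rw [Finset.sum_comm]
  have : ∀ a : Fin k → K, (∑ g : Fin k → Fin n → K, if (a ≠ 0 ∧ (∑ i, a i • g i) = 0) then (1 : ℝ) else 0)
      ≤ ((Fintype.card K : ℝ) ^ n) ^ k / (Fintype.card K : ℝ) ^ n := by
    intro a
    by_cases ha : a ≠ 0
    · have h6 := comb_count (n := n) a ha 0
      rw [le_div_iff₀ (by positivity), ← h6]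
      refine mul_le_mul_of_nonneg_right (Finset.sum_le_sum (fun g _ => ?_)) (by positivity)
      by_cases hh : (∑ i, a i • g i) = 0
      · rw [if_pos ⟨ha, hh⟩, if_pos hh]
      · rw [if_neg (fun h => hh h.2), if_neg hh]
    · have : (∑ g : Fin k → Fin n → K, if (a ≠ 0 ∧ (∑ i, a i • g i) = 0) then (1 : ℝ) else 0) = 0 := by
        refine Finset.sum_eq_zero (fun g _ => ?_)
        rw [if_neg]; rintro ⟨h, _⟩; exact ha h
      rw [this]; positivity
  refine le_trans (Finset.sum_le_sum (fun a _ => this a)) ?_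
  rw [Finset.sum_const, Finset.card_univ, nsmul_eq_mul, Fintype.card_fun, Fintype.card_fin]
  push_cast
  apply le_of_eq; ring

/-- number of ordered bases of `C` -/
noncomputable def nbas (k : ℕ) (C : Submodule K (Fin n → K)) : ℕ :=
  (Finset.univ.filter (fun g : Fin k → Fin n → K =>
    LinearIndependent K g ∧ Submodule.span K (Set.range g) = C)).card

theorem nbas_le (k : ℕ) (C C' : Submodule K (Fin n → K)) (h : Module.finrank K C = k)
    (h' : Module.finrank K C' = k) : nbas k C ≤ nbas k C' := by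
  have e : C ≃ₗ[K] C' := LinearEquiv.ofFinrankEq C C' (h.trans h'.symm)
  unfold nbas
  refine Finset.card_le_card_of_injOn
    (fun g i => if hg : g i ∈ C then ((e ⟨g i, hg⟩ : C') : Fin n → K) else 0) ?_ ?_
  · intro g hg
    simp only [Finset.coe_filter, Finset.mem_univ, true_and, Set.mem_setOf_eq] at hg ⊢
    obtain ⟨hli, hsp⟩ := hg
    have hmem : ∀ i, g i ∈ C := fun i => by rw [← hsp]; exact Submodule.subset_span ⟨i, rfl⟩
    have e1 : (fun i => if hg : g i ∈ C then ((e ⟨g i, hg⟩ : C') : Fin n → K) else 0)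
        = fun i => ((e ⟨g i, hmem i⟩ : C') : Fin n → K) := by
      funext i; rw [dif_pos (hmem i)]
    rw [e1]
    have hli2 : LinearIndependent K (fun i => (⟨g i, hmem i⟩ : C)) :=
      LinearIndependent.of_comp C.subtype hli
    have hli3 : LinearIndependent K (fun i => ((e ⟨g i, hmem i⟩ : C') : Fin n → K)) := by
      have h1 := hli2.map' (C'.subtype ∘ₗ e.toLinearMap) (by
        rw [LinearMap.ker_eq_bot]
        exact (Subtype.val_injective).comp e.injective)
      exact h1
    refine ⟨hli3, ?_⟩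
    apply Submodule.eq_of_le_of_finrank_eq
    · rw [Submodule.span_le]
      rintro _ ⟨i, rfl⟩
      exact (e ⟨g i, hmem i⟩).2
    · rw [finrank_span_eq_card hli3, Fintype.card_fin, h']
  · intro g hg g' hg' hgg
    simp only [Finset.coe_filter, Finset.mem_univ, true_and, Set.mem_setOf_eq] at hg hg'
    have hmem : ∀ i, g i ∈ C := fun i => by rw [← hg.2]; exact Submodule.subset_span ⟨i, rfl⟩
    have hmem' : ∀ i, g' i ∈ C := fun i => by rw [← hg'.2]; exact Submodule.subset_span ⟨i, rfl⟩
    funext i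
    have := congrFun hgg i
    simp only [dif_pos (hmem i), dif_pos (hmem' i)] at this
    have h2 := e.injective (Subtype.ext this)
    exact congrArg Subtype.val h2

theorem nbas_pos (k : ℕ) (C : Submodule K (Fin n → K)) (h : Module.finrank K C = k) :
    0 < nbas k C := by
  unfold nbas
  rw [Finset.card_pos]
  let B := Module.finBasisOfFinrankEq K C h
  refine ⟨fun i => ((B i : C) : Fin n → K), ?_⟩
  simp only [Finset.mem_filter, Finset.mem_univ, true_and]
  have hli : LinearIndependent K (fun i => ((B i : C) : Fin n → K)) :=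
    B.linearIndependent.map' C.subtype (by simp)
  refine ⟨hli, ?_⟩
  apply Submodule.eq_of_le_of_finrank_eq
  · rw [Submodule.span_le]
    rintro _ ⟨i, rfl⟩
    exact (B i).2
  · rw [finrank_span_eq_card hli, Fintype.card_fin, h]

theorem code_count (k : ℕ) (C0 : Submodule K (Fin n → K)) (h0 : Module.finrank K C0 = k)
    (P : Submodule K (Fin n → K) → Prop) :
    (∑ g : Fin k → Fin n → K, if LinearIndependent K g ∧ P (Submodule.span K (Set.range g)) then (1 : ℝ) else 0)
      = (({C : Submodule K (Fin n → K) | Module.finrank K C = k ∧ P C}.ncard : ℕ) : ℝ) * (nbas k C0 : ℝ) := by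
  haveI : Fintype (Submodule K (Fin n → K)) := Fintype.ofFinite _
  have hS : {C : Submodule K (Fin n → K) | Module.finrank K C = k ∧ P C}.ncard
      = (Finset.univ.filter (fun C : Submodule K (Fin n → K) => Module.finrank K C = k ∧ P C)).card := by
    rw [← Set.ncard_coe_finset]
    congr 1
    ext C; simp
  rw [hS]
  have h1 : ∀ C ∈ Finset.univ.filter (fun C : Submodule K (Fin n → K) => Module.finrank K C = k ∧ P C),
      (nbas k C : ℝ) = nbas k C0 := by
    intro C hC
    simp only [Finset.mem_filter, Finset.mem_univ, true_and] at hC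
    exact_mod_cast le_antisymm (nbas_le k C C0 hC.1 h0) (nbas_le k C0 C h0 hC.1)
  rw [← nsmul_eq_mul, ← Finset.sum_const, ← Finset.sum_congr rfl h1]
  unfold nbas
  simp only [Finset.card_filter]
  push_cast
  rw [Finset.sum_comm]
  refine Finset.sum_congr rfl (fun g _ => ?_)
  by_cases hg : LinearIndependent K g ∧ P (Submodule.span K (Set.range g))
  · rw [if_pos hg]
    have hfr : Module.finrank K (Submodule.span K (Set.range g)) = k := by
      rw [finrank_span_eq_card hg.1, Fintype.card_fin]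
    rw [Finset.sum_eq_single_of_mem (Submodule.span K (Set.range g))]
    · rw [if_pos ⟨hg.1, rfl⟩]
    · simp only [Finset.mem_filter, Finset.mem_univ, true_and]; exact ⟨hfr, hg.2⟩
    · intro C _ hne
      rw [if_neg]; rintro ⟨_, h⟩; exact hne h.symm
  · rw [if_neg hg]
    symm
    refine Finset.sum_eq_zero (fun C hC => ?_)
    simp only [Finset.mem_filter, Finset.mem_univ, true_and] at hC
    rw [if_neg]
    rintro ⟨h1, h2⟩
    exact hg ⟨h1, h2 ▸ hC.2⟩

end Pool.Agent.V11199.RC
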