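import Mathlib
import Pool.Agent.V11199.RC.Count

set_option linter.all false

namespace Pool.Agent.V11199.RC

open Finset Classical Filter Topology

theorem tendsto_exp_neg (a : ℝ) (ha : 0 < a) (k : ℕ) :
    Tendsto (fun n : ℕ => (n : ℝ) ^ k * Real.exp (-(a * n))) atTop (𝓝 0) := by
  have h1 : Tendsto (fun n : ℕ => a * (n : ℝ)) atTop atTop :=
    Tendsto.const_mul_atTop ha tendsto_natCast_atTop_atTop
  have h2 := (Real.tendsto_pow_mul_exp_neg_atTop_nhds_zero k).comp h1
  have h3 := h2.const_mul ((1 / a) ^ k)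
  rw [mul_zero] at h3
  refine h3.congr (fun n => ?_)
  simp only [Function.comp_apply]
  rw [mul_pow, ← mul_assoc, ← mul_assoc, ← mul_pow, one_div, inv_mul_cancel₀ (ne_of_gt ha), one_pow,
    one_mul]

theorem X_tendsto (Q : ℝ) (hQ : 2 ≤ Q) (R : ℝ) (hR0 : 0 < R) (hR1 : R < 1)
    (Bw : ℕ → ℕ → ℝ)
    (hB : ∀ (n w : ℕ) (z : ℝ), 0 < z → z ≤ 1 → Bw n w ≤ (1 + (Q - 1) * z) ^ n * (1 / z) ^ w) :
    ∃ (m l : ℕ → ℕ), (∀ n, m n ≤ n) ∧ (∀ᶠ n in atTop, 1 ≤ l n ∧ 4 * l n ≤ ⌊R * n⌋₊) ∧
      ∀ ε : ℝ, 0 < ε → ∀ᶠ n : ℕ in atTop,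
        Q ^ ⌊R * n⌋₊ * Bw n (3 * m n) / Q ^ n + (n : ℝ) ^ 2 * Q ^ 2 / Q ^ ⌊R * n⌋₊
          + (Nat.factorial n : ℝ) * Q ^ n *
            (2 ^ (4 * l n) * (Q ^ (2 + 2 * (4 * l n)) * Q ^ (n - m n) / Q ^ n) ^ (l n)
              + 2 ^ (⌊R * n⌋₊ - 4 * l n) *
                (Q ^ (3 * (4 * l n) + (⌊R * n⌋₊ - 4 * l n)) / Q ^ n) ^ (2 * l n)) < ε := by
  have hQ0 : 0 < Q := by linarith
  set L := Real.log Q with hL
  have hL0 : 0 < L := Real.log_pos (by linarith)
  have hexpL : Real.exp L = Q := Real.exp_log hQ0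
  have hpow : ∀ a : ℕ, Q ^ a = Real.exp (a * L) := by
    intro a; rw [Real.exp_nat_mul, hexpL]
  set δ := (1 - R) * L / 4 with hδ
  have hδ0 : 0 < δ := by rw [hδ]; have : 0 < 1 - R := by linarith
                         positivity
  set z := min 1 (δ / Q) with hz
  have hz0 : 0 < z := lt_min zero_lt_one (by positivity)
  have hz1 : z ≤ 1 := min_le_left _ _
  have hz2 : (Q - 1) * z ≤ δ := by
    have h1 : z ≤ δ / Q := min_le_right _ _
    have h2 : (Q - 1) * z ≤ Q * z := by linarith
    have h3 : Q * z ≤ Q * (δ / Q) := mul_le_mul_of_nonneg_left h1 hQ0.le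
    have h4 : Q * (δ / Q) = δ := by field_simp
    linarith
  set lam := Real.log (1 / z) with hlam
  have hlam0 : 0 ≤ lam := Real.log_nonneg (by rw [le_div_iff₀ hz0]; linarith)
  have hexplam : Real.exp lam = 1 / z := Real.exp_log (by positivity)
  set μ := min 1 (δ / (3 * lam + 1)) with hμ
  have hμ0 : 0 < μ := lt_min zero_lt_one (by positivity)
  have hμ1 : μ ≤ 1 := min_le_left _ _
  have hμ2 : 3 * μ * lam ≤ δ := by
    have h1 : μ ≤ δ / (3 * lam + 1) := min_le_right _ _
    have h2 : μ * (3 * lam) ≤ δ / (3 * lam + 1) * (3 * lam) :=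
      mul_le_mul_of_nonneg_right h1 (by positivity)
    have h3 : δ / (3 * lam + 1) * (3 * lam) ≤ δ := by
      rw [div_mul_eq_mul_div, div_le_iff₀ (by positivity)]
      nlinarith
    linarith
  set η := min (μ / 32) (min ((1 - R) / 16) (R / 8)) with hη
  have hη0 : 0 < η := lt_min (by positivity) (lt_min (by linarith) (by positivity))
  have hη1 : η ≤ μ / 32 := min_le_left _ _
  have hη2 : η ≤ (1 - R) / 16 := le_trans (min_le_right _ _) (min_le_left _ _)
  have hη3 : η ≤ R / 8 := le_trans (min_le_right _ _) (min_le_right _ _)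
  refine ⟨fun n => ⌊μ * n⌋₊, fun n => ⌊η * n⌋₊, ?_, ?_, ?_⟩
  · intro n
    have : ⌊μ * (n : ℝ)⌋₊ ≤ ⌊(n : ℝ)⌋₊ := Nat.floor_le_floor (by
      have : (0 : ℝ) ≤ n := by positivity
      nlinarith)
    simpa using this
  · have e1 : ∀ᶠ n : ℕ in atTop, 2 / η + 2 / R + 1 ≤ (n : ℝ) :=
      (tendsto_natCast_atTop_atTop (R := ℝ)).eventually (eventually_ge_atTop _)
    filter_upwards [e1] with n hn
    have hp1 : 0 < 2 / η := by positivity
    have hp2 : 0 < 2 / R := by positivity
    have hn0 : (0 : ℝ) < n := by linarith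
    have hηn : 2 ≤ η * n := by
      have : 2 / η ≤ n := by linarith
      rw [div_le_iff₀ hη0] at this; linarith
    have hRn : 2 ≤ R * n := by
      have : 2 / R ≤ n := by linarith
      rw [div_le_iff₀ hR0] at this; linarith
    constructor
    · rw [Nat.le_floor_iff (by positivity)]; push_cast; linarith
    · rw [Nat.le_floor_iff (by positivity)]
      push_cast
      have h1 : (⌊η * (n : ℝ)⌋₊ : ℝ) ≤ η * n := Nat.floor_le (by positivity)
      have p3 : η * n ≤ R / 8 * n := mul_le_mul_of_nonneg_right hη3 hn0.le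
      linarith
  · intro ε hε
    set c := min (η * μ * L / 4) (η * (1 - R) * L / 2) with hc
    have hc0 : 0 < c := lt_min (by positivity) (by
      have : 0 < 1 - R := by linarith
      positivity)
    have hc1 : c ≤ η * μ * L / 4 := min_le_left _ _
    have hc2 : c ≤ η * (1 - R) * L / 2 := min_le_right _ _
    have t1 := (tendsto_order.1 (tendsto_exp_neg (2 * δ) (by positivity) 0)).2 (ε / 3) (by positivity)
    have t2 := (tendsto_order.1 ((tendsto_exp_neg (R * L) (by positivity) 2).const_mul (Q ^ 3))).2 (ε / 3)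
      (by rw [mul_zero]; positivity)
    have t3 := (tendsto_order.1 ((tendsto_exp_neg (c / 2) (by positivity) 0).const_mul 2)).2 (ε / 3)
      (by rw [mul_zero]; positivity)
    have t4 : Tendsto (fun n : ℕ => Real.log n / n + (L + 4) / n) atTop (𝓝 0) := by
      have h1 : Tendsto (fun n : ℕ => Real.log n / n) atTop (𝓝 0) := by
        have := Real.isLittleO_log_id_atTop.tendsto_div_nhds_zero
        exact this.comp tendsto_natCast_atTop_atTop
      have h2 : Tendsto (fun n : ℕ => (L + 4) / (n : ℝ)) atTop (𝓝 0) :=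
        tendsto_const_div_atTop_nhds_zero_nat _
      simpa using h1.add h2
    have t5 := (tendsto_order.1 t4).2 (c / 2) (by positivity)
    have e1 : ∀ᶠ n : ℕ in atTop, 2 / η + 12 / μ + 2 / R + 1 ≤ (n : ℝ) :=
      (tendsto_natCast_atTop_atTop (R := ℝ)).eventually (eventually_ge_atTop _)
    filter_upwards [t1, t2, t3, t5, e1] with n h1 h2 h3 h5 hn
    have hp1 : 0 < 2 / η := by positivity
    have hp2 : 0 < 12 / μ := by positivity
    have hp3 : 0 < 2 / R := by positivity
    have hn0 : (0 : ℝ) < n := by linarith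
    have hn1 : (1 : ℝ) ≤ n := by linarith
    have hηn : 2 ≤ η * n := by
      have : 2 / η ≤ n := by linarith
      rw [div_le_iff₀ hη0] at this; linarith
    have hμn : 12 ≤ μ * n := by
      have : 12 / μ ≤ n := by linarith
      rw [div_le_iff₀ hμ0] at this; linarith
    have hRn : 2 ≤ R * n := by
      have : 2 / R ≤ n := by linarith
      rw [div_le_iff₀ hR0] at this; linarith
    have p1 : η * n ≤ μ / 32 * n := mul_le_mul_of_nonneg_right hη1 hn0.le
    have p2 : η * n ≤ (1 - R) / 16 * n := mul_le_mul_of_nonneg_right hη2 hn0.le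
    have p3 : η * n ≤ R / 8 * n := mul_le_mul_of_nonneg_right hη3 hn0.le
    have p4 : μ * n ≤ n := mul_le_of_le_one_left hn0.le hμ1
    have p5 : R * n ≤ n := mul_le_of_le_one_left hn0.le hR1.le
    set k := ⌊R * (n : ℝ)⌋₊ with hk
    set m := ⌊μ * (n : ℝ)⌋₊ with hm
    set l := ⌊η * (n : ℝ)⌋₊ with hl
    have k1 : (k : ℝ) ≤ R * n := Nat.floor_le (by positivity)
    have k2 : R * n - 1 < k := Nat.sub_one_lt_floor _
    have m1 : (m : ℝ) ≤ μ * n := Nat.floor_le (by positivity)
    have m2 : μ * n - 1 < m := Nat.sub_one_lt_floor _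
    have l1 : (l : ℝ) ≤ η * n := Nat.floor_le (by positivity)
    have l2 : η * n - 1 < l := Nat.sub_one_lt_floor _
    have lk : 4 * l ≤ k := by
      rw [hk, Nat.le_floor_iff (by positivity)]
      push_cast
      linarith
    have mn : m ≤ n := by
      have : (m : ℝ) ≤ n := by linarith
      exact_mod_cast this
    -- term 1
    have s1 : Q ^ k * Bw n (3 * m) / Q ^ n < ε / 3 := by
      refine lt_of_le_of_lt ?_ h1
      have hb := hB n (3 * m) z hz0 hz1
      have hb1 : (1 + (Q - 1) * z) ^ n ≤ Real.exp (n * δ) := by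
        rw [Real.exp_nat_mul]
        apply pow_le_pow_left₀
        · have : 0 ≤ (Q - 1) * z := mul_nonneg (by linarith) hz0.le
          linarith
        · have := Real.add_one_le_exp δ
          linarith
      have hb2 : (1 / z) ^ (3 * m) = Real.exp ((3 * m : ℕ) * lam) := by
        rw [Real.exp_nat_mul, hexplam]
      have hb3 : Bw n (3 * m) ≤ Real.exp (n * δ) * Real.exp ((3 * m : ℕ) * lam) := by
        refine le_trans hb ?_
        rw [← hb2]
        exact mul_le_mul_of_nonneg_right hb1 (by positivity)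
      have : Q ^ k * Bw n (3 * m) / Q ^ n
          ≤ Q ^ k * (Real.exp (n * δ) * Real.exp ((3 * m : ℕ) * lam)) / Q ^ n := by
        apply div_le_div_of_nonneg_right _ (by positivity)
        exact mul_le_mul_of_nonneg_left hb3 (by positivity)
      refine le_trans this ?_
      rw [hpow k, hpow n, ← Real.exp_add, ← Real.exp_add, ← Real.exp_sub, pow_zero, one_mul]
      apply Real.exp_le_exp.2
      push_cast
      have q1 : (k : ℝ) * L ≤ R * n * L := mul_le_mul_of_nonneg_right k1 hL0.le
      have q2 : 3 * (m : ℝ) * lam ≤ n * δ := by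
        have : 3 * (m : ℝ) * lam ≤ 3 * (μ * n) * lam := by
          apply mul_le_mul_of_nonneg_right _ hlam0
          linarith
        have h7 : 3 * (μ * n) * lam = n * (3 * μ * lam) := by ring
        rw [h7] at this
        exact le_trans this (mul_le_mul_of_nonneg_left hμ2 hn0.le)
      have q3 : R * n * L - n * L = -(4 * (n * δ)) := by rw [hδ]; ring
      linarith
    -- term 2
    have s2 : (n : ℝ) ^ 2 * Q ^ 2 / Q ^ k < ε / 3 := by
      refine lt_of_le_of_lt ?_ h2
      rw [div_le_iff₀ (by positivity)]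
      have : (1 : ℝ) ≤ Q * Real.exp (-(R * L * n)) * Q ^ k := by
        rw [hpow k]
        nth_rw 1 [← hexpL]
        rw [← Real.exp_add, ← Real.exp_add, ← Real.exp_zero]
        apply Real.exp_le_exp.2
        have q1 : (R * n - 1) * L ≤ k * L := mul_le_mul_of_nonneg_right k2.le hL0.le
        linarith
      calc (n : ℝ) ^ 2 * Q ^ 2 = (n : ℝ) ^ 2 * Q ^ 2 * 1 := by ring
        _ ≤ (n : ℝ) ^ 2 * Q ^ 2 * (Q * Real.exp (-(R * L * n)) * Q ^ k) :=
          mul_le_mul_of_nonneg_left this (by positivity)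
        _ = _ := by ring
    -- term 3
    have s3 : (Nat.factorial n : ℝ) * Q ^ n *
            (2 ^ (4 * l) * (Q ^ (2 + 2 * (4 * l)) * Q ^ (n - m) / Q ^ n) ^ l
              + 2 ^ (k - 4 * l) * (Q ^ (3 * (4 * l) + (k - 4 * l)) / Q ^ n) ^ (2 * l)) < ε / 3 := by
      refine lt_of_le_of_lt ?_ h3
      have f1 : (Nat.factorial n : ℝ) * Q ^ n ≤ Real.exp (n * Real.log n + n * L) := by
        rw [Real.exp_add, hpow n]
        apply mul_le_mul_of_nonneg_right _ (by positivity)
        rw [Real.exp_nat_mul, Real.exp_log hn0]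
        exact_mod_cast Nat.factorial_le_pow n
      have two : ∀ a : ℕ, (2 : ℝ) ^ a ≤ Real.exp a := by
        intro a
        have : Real.exp a = (Real.exp 1) ^ a := by rw [← Real.exp_nat_mul, mul_one]
        rw [this]
        apply pow_le_pow_left₀ (by norm_num)
        have := Real.add_one_le_exp (1 : ℝ)
        linarith
      have cnm : ((n - m : ℕ) : ℝ) = n - m := Nat.cast_sub mn
      have ckl : ((k - 4 * l : ℕ) : ℝ) = k - 4 * l := by rw [Nat.cast_sub lk]; push_cast; ring
      have lpos : η * n / 2 ≤ l := by linarith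
      have g1 : (2 : ℝ) ^ (4 * l) * (Q ^ (2 + 2 * (4 * l)) * Q ^ (n - m) / Q ^ n) ^ l
          ≤ Real.exp (4 * n - c * n ^ 2) := by
        rw [hpow (2 + 2 * (4 * l)), hpow (n - m), hpow n, ← Real.exp_add, ← Real.exp_sub,
          ← Real.exp_nat_mul]
        refine le_trans (mul_le_mul_of_nonneg_right (two (4 * l)) (Real.exp_nonneg _)) ?_
        rw [← Real.exp_add]
        apply Real.exp_le_exp.2
        push_cast
        rw [cnm]
        have a1 : (2 + 2 * (4 * (l : ℝ))) * L + ((n : ℝ) - m) * L - n * L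
            = (2 + 8 * l - m) * L := by ring
        rw [a1]
        have a2 : 2 + 8 * (l : ℝ) - m ≤ -(μ * n / 2) := by linarith
        have a3 : (l : ℝ) * ((2 + 8 * l - m) * L) ≤ (l : ℝ) * (-(μ * n / 2) * L) :=
          mul_le_mul_of_nonneg_left (mul_le_mul_of_nonneg_right a2 hL0.le) (by positivity)
        have a4 : (l : ℝ) * (-(μ * n / 2) * L) ≤ (η * n / 2) * (-(μ * n / 2) * L) := by
          have h0 : 0 ≤ μ * n / 2 * L := by positivity
          have h1 := mul_le_mul_of_nonneg_right lpos h0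
          linarith
        have a5 : (η * n / 2) * (-(μ * n / 2) * L) = -(η * μ * L / 4 * n ^ 2) := by ring
        have a6 : c * (n : ℝ) ^ 2 ≤ η * μ * L / 4 * n ^ 2 :=
          mul_le_mul_of_nonneg_right hc1 (by positivity)
        have a7 : 4 * (l : ℝ) ≤ 4 * n := by linarith
        linarith
      have g2 : (2 : ℝ) ^ (k - 4 * l) * (Q ^ (3 * (4 * l) + (k - 4 * l)) / Q ^ n) ^ (2 * l)
          ≤ Real.exp (4 * n - c * n ^ 2) := by
        rw [hpow (3 * (4 * l) + (k - 4 * l)), hpow n, ← Real.exp_sub, ← Real.exp_nat_mul]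
        refine le_trans (mul_le_mul_of_nonneg_right (two (k - 4 * l)) (Real.exp_nonneg _)) ?_
        rw [← Real.exp_add]
        apply Real.exp_le_exp.2
        push_cast
        rw [ckl]
        have a1 : (3 * (4 * (l : ℝ)) + ((k : ℝ) - 4 * l)) * L - n * L = (8 * l + k - n) * L := by ring
        rw [a1]
        have a2 : 8 * (l : ℝ) + k - n ≤ -((1 - R) * n / 2) := by linarith
        have a3 : 2 * (l : ℝ) * ((8 * l + k - n) * L) ≤ 2 * (l : ℝ) * (-((1 - R) * n / 2) * L) :=
          mul_le_mul_of_nonneg_left (mul_le_mul_of_nonneg_right a2 hL0.le) (by positivity)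
        have h1R : 0 < 1 - R := by linarith
        have a4 : 2 * (l : ℝ) * (-((1 - R) * n / 2) * L) ≤ (η * n) * (-((1 - R) * n / 2) * L) := by
          have h0 : 0 ≤ (1 - R) * n / 2 * L := by positivity
          have h1 := mul_le_mul_of_nonneg_right lpos h0
          linarith
        have a5 : (η * n) * (-((1 - R) * n / 2) * L) = -(η * (1 - R) * L / 2 * n ^ 2) := by ring
        have a6 : c * (n : ℝ) ^ 2 ≤ η * (1 - R) * L / 2 * n ^ 2 :=
          mul_le_mul_of_nonneg_right hc2 (by positivity)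
        have a7 : (k : ℝ) - 4 * l ≤ 4 * n := by
          have : (0 : ℝ) ≤ l := by positivity
          linarith
        linarith
      calc _ ≤ Real.exp (n * Real.log n + n * L) * (Real.exp (4 * n - c * n ^ 2)
                + Real.exp (4 * n - c * n ^ 2)) :=
            mul_le_mul f1 (add_le_add g1 g2) (by positivity) (Real.exp_nonneg _)
        _ = 2 * Real.exp (n * Real.log n + n * L + (4 * n - c * n ^ 2)) := by
            rw [Real.exp_add (n * Real.log n + n * L) (4 * n - c * n ^ 2)]; ring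
        _ ≤ 2 * ((n : ℝ) ^ 0 * Real.exp (-(c / 2 * n))) := by
            rw [pow_zero, one_mul]
            apply mul_le_mul_of_nonneg_left _ (by norm_num)
            apply Real.exp_le_exp.2
            have b1 : n * Real.log n + n * L + 4 * n ≤ c / 2 * n ^ 2 := by
              have : Real.log n / n + (L + 4) / n = (Real.log n + (L + 4)) / n := by ring
              rw [this, div_lt_iff₀ hn0] at h5
              have := mul_le_mul_of_nonneg_left h5.le hn0.le
              linarith
            have b2 : c / 2 * (n : ℝ) ≤ c / 2 * n ^ 2 := by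
              apply mul_le_mul_of_nonneg_left _ (by positivity)
              have := mul_le_mul_of_nonneg_left hn1 hn0.le
              linarith
            linarith
    linarith

end Pool.Agent.V11199.RC
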