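import Mathlib
import Pool.Agent.V11199.RC.Count

set_option linter.all false

namespace Pool.Agent.V11199.RC

open Finset Classical

variable {K : Type} [Field K] [Fintype K] {n : ℕ}


theorem frac (j r m b h : ℕ) (hb : 1 ≤ b) (hh : h + 2 * b ≤ j + 2) (hmn : m ≤ n)
    (hkn : j + r < n) (X : ℝ)
    (hX : (Fintype.card K : ℝ) ^ (j + r) * (∑ v : Fin n → K, if wt v ≤ 3 * m then (1 : ℝ) else 0) / (Fintype.card K : ℝ) ^ n
      + (n : ℝ) ^ 2 * (Fintype.card K : ℝ) ^ 2 / (Fintype.card K : ℝ) ^ (j + r)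
      + (Nat.factorial n : ℝ) * (Fintype.card K : ℝ) ^ n * (2 ^ j * ((Fintype.card K : ℝ) ^ (2 + 2 * j) * (Fintype.card K : ℝ) ^ (n - m) / (Fintype.card K : ℝ) ^ n) ^ b
        + 2 ^ r * ((Fintype.card K : ℝ) ^ (3 * j + r) / (Fintype.card K : ℝ) ^ n) ^ h) ≤ X) (hX0 : 0 ≤ X) :
    0 < (({C : Submodule K (Fin n → K) | Module.finrank K C = j + r}.ncard : ℕ) : ℝ) ∧
    (({C : Submodule K (Fin n → K) | Module.finrank K C = j + r ∧ OnlyScalars C}.ncard : ℕ) : ℝ)
      ≤ (({C : Submodule K (Fin n → K) | Module.finrank K C = j + r}.ncard : ℕ) : ℝ) ∧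
    (({C : Submodule K (Fin n → K) | Module.finrank K C = j + r}.ncard : ℕ) : ℝ)
      - (({C : Submodule K (Fin n → K) | Module.finrank K C = j + r ∧ OnlyScalars C}.ncard : ℕ) : ℝ)
      ≤ 2 * X * (({C : Submodule K (Fin n → K) | Module.finrank K C = j + r}.ncard : ℕ) : ℝ) := by
  have hq2 : (2 : ℝ) ≤ (Fintype.card K : ℝ) := by exact_mod_cast Fintype.one_lt_card (α := K)
  have hq0 : (0 : ℝ) < (Fintype.card K : ℝ) := by linarith
  set v : Fin (j + r) → Fin n → K := fun i => Pi.basisFun K (Fin n) (Fin.castLE hkn.le i) with hv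
  have hli : LinearIndependent K v :=
    (Pi.basisFun K (Fin n)).linearIndependent.comp _ (Fin.castLE_injective hkn.le)
  have h0 : Module.finrank K (Submodule.span K (Set.range v)) = j + r := by
    rw [finrank_span_eq_card hli, Fintype.card_fin]
  set C0 := Submodule.span K (Set.range v) with hC0
  have nb : (0 : ℝ) < nbas (j + r) C0 := by exact_mod_cast nbas_pos (j + r) C0 h0
  have c1 := code_count (j + r) C0 h0 (fun _ => True)
  have c2 := code_count (j + r) C0 h0 (fun C => ¬ OnlyScalars C)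
  have c3 := code_count (j + r) C0 h0 (fun C => OnlyScalars C)
  have hA : {C : Submodule K (Fin n → K) | Module.finrank K C = j + r ∧ True}
      = {C : Submodule K (Fin n → K) | Module.finrank K C = j + r} := by ext C; simp
  beta_reduce at c1 c2 c3
  rw [hA] at c1
  set A : ℝ := (({C : Submodule K (Fin n → K) | Module.finrank K C = j + r}.ncard : ℕ) : ℝ) with hAA
  set G : ℝ := (({C : Submodule K (Fin n → K) | Module.finrank K C = j + r ∧ OnlyScalars C}.ncard : ℕ) : ℝ) with hG
  set B : ℝ := (({C : Submodule K (Fin n → K) | Module.finrank K C = j + r ∧ ¬ OnlyScalars C}.ncard : ℕ) : ℝ) with hB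
  have e1 : A * (nbas (j + r) C0 : ℝ) = G * (nbas (j + r) C0 : ℝ) + B * (nbas (j + r) C0 : ℝ) := by
    rw [← c1, ← c2, ← c3, ← Finset.sum_add_distrib]
    refine Finset.sum_congr rfl (fun g _ => ?_)
    by_cases h1 : LinearIndependent K g <;>
      by_cases h2 : OnlyScalars (Submodule.span K (Set.range g)) <;> simp [h1, h2]
  have e2 : A = G + B := by
    have : A * (nbas (j + r) C0 : ℝ) = (G + B) * (nbas (j + r) C0 : ℝ) := by rw [e1]; ring
    exact mul_right_cancel₀ (ne_of_gt nb) this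
  have hN : (0 : ℝ) < ((Fintype.card K : ℝ) ^ n) ^ (j + r) := by positivity
  have e3 : A * (nbas (j + r) C0 : ℝ)
      + (∑ g : Fin (j + r) → Fin n → K, if ¬ LinearIndependent K g then (1 : ℝ) else 0)
        = ((Fintype.card K : ℝ) ^ n) ^ (j + r) := by
    rw [← c1, ← Finset.sum_add_distrib]
    refine (Finset.sum_congr rfl (g := fun _ => (1 : ℝ)) (fun g _ => ?_)).trans ?_
    · by_cases h1 : LinearIndependent K g <;> simp [h1]
    rw [Finset.sum_const, Finset.card_univ, nsmul_eq_mul, mul_one,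
      Fintype.card_fun, Fintype.card_fin]
    push_cast
    rw [cardV]
  have e4 := dep_bound (K := K) (n := n) (j + r)
  have e5 : (Fintype.card K : ℝ) ^ (j + r) / (Fintype.card K : ℝ) ^ n ≤ 1 / 2 := by
    rw [div_le_div_iff₀ (by positivity) (by norm_num)]
    have : (Fintype.card K : ℝ) ^ n = (Fintype.card K : ℝ) ^ (j + r) * (Fintype.card K : ℝ) ^ (n - (j + r)) := by rw [← pow_add]; congr 1; omega
    rw [this, one_mul]
    apply mul_le_mul_of_nonneg_left _ (by positivity)
    calc (2 : ℝ) ≤ (Fintype.card K : ℝ) := hq2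
      _ = (Fintype.card K : ℝ) ^ 1 := (pow_one _).symm
      _ ≤ (Fintype.card K : ℝ) ^ (n - (j + r)) := pow_le_pow_right₀ (by linarith) (by omega)
  have e6 : ((Fintype.card K : ℝ) ^ n) ^ (j + r) / 2 ≤ A * (nbas (j + r) C0 : ℝ) := by
    have := mul_le_mul_of_nonneg_right e5 hN.le
    linarith
  have e7 : B * (nbas (j + r) C0 : ℝ) ≤ X * ((Fintype.card K : ℝ) ^ n) ^ (j + r) := by
    rw [← c2]
    refine le_trans (le_of_eq ?_) (le_trans (bad_bound (K := K) (n := n) j r m b h hb hh hmn)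
      (mul_le_mul_of_nonneg_right hX hN.le))
    refine Finset.sum_congr rfl (fun g _ => ?_)
    by_cases h1 : LinearIndependent K g ∧ ¬ OnlyScalars (Submodule.span K (Set.range g))
    · rw [if_pos h1, if_pos h1]
    · rw [if_neg h1, if_neg h1]
  have e8 : B * (nbas (j + r) C0 : ℝ) ≤ (2 * X * A) * (nbas (j + r) C0 : ℝ) := by
    have := mul_le_mul_of_nonneg_left e6 hX0
    linarith
  have e9 : B ≤ 2 * X * A := le_of_mul_le_mul_right e8 nb
  have hB0 : 0 ≤ B := by rw [hB]; positivity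
  refine ⟨?_, by linarith, by linarith⟩
  by_contra hneg
  have hA0 : A * (nbas (j + r) C0 : ℝ) ≤ 0 := mul_nonpos_of_nonpos_of_nonneg (not_lt.1 hneg) nb.le
  linarith

end Pool.Agent.V11199.RC
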